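import Pool.Agent.Lib.H98V.DT

/-!
# H71Y, file A: the parity of the number of crossings of an edge with a cycle through `s`

`pc X s x y l`: the parity of the number of crossings of the edge `xy` with the closed polygon `s, l`. It is a
coboundary in `x`, `y` (`pc_add`), it is `0` if `xy` misses the polygon (`pc_miss`), and it is the alternation at `s` if
`sx` and `sy` miss the inner edges of the polygon (`pc_alt`).
-/

set_option autoImplicit false
set_option linter.unusedSectionVars false

namespace H71Y

open H53P H98V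

variable {V : Type}

/-- the parity of the number of crossings of `xy` with the edges of the path `l` -/
def pr (X : V → V → V → V → Bool) (x y : V) : List V → Bool
  | [] => false
  | [_] => false
  | a :: b :: l => X x y a b ^^ pr X x y (b :: l)

/-- the parity of the number of crossings of `xy` with the closed polygon `s, l`, as a sum of triangles -/
def pc (X : V → V → V → V → Bool) (s x y : V) : List V → Bool
  | [] => false
  | [_] => false
  | a :: b :: l => crTX X s a b x y ^^ pc X s x y (b :: l)

variable (T : Table V)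

/-- the last vertex of the list `a :: l` -/
def la (a : V) : List V → V
  | [] => a
  | b :: l => la b l

theorem la_mem : ∀ (l : List V) (a : V), la a l ∈ a :: l := by
  intro l
  induction l with
  | nil => intro a; simp [la]
  | cons b l ih => intro a; exact List.mem_cons_of_mem _ (ih b)

theorem pc_eq (s x y : V) : ∀ (l : List V) (a : V),
    pc T.X s x y (a :: l) = ((T.X x y s a ^^ pr T.X x y (a :: l)) ^^ T.X x y s (la a l)) := by
  intro l
  induction l with
  | nil =>
    intro a
    simp only [pc, pr, la]
    cases T.X x y s a <;> rfl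
  | cons b l ih =>
    intro a
    simp only [pc, pr, la]
    rw [ih b]
    unfold crTX
    rw [T.symm2 x y b s, T.symm1 b s, ← T.symm2 x y s b]
    cases T.X x y s a <;> cases T.X x y a b <;> cases T.X x y s b <;> cases pr T.X x y (b :: l) <;>
      cases T.X x y s (la b l) <;> rfl

theorem cr_comm (a b c x y : V) : crTX T.X a b c x y = crTX T.X a b c y x := by
  unfold crTX
  rw [T.symm1 x y a b, T.symm1 x y b c, T.symm1 x y c a]

/-- additivity -/
theorem pc_add {s x y z : V} (hx : x ≠ s) (hy : y ≠ s) (hz : z ≠ s) : ∀ l : List V, l.Nodup → s ∉ l → x ∉ l →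
    y ∉ l → z ∉ l → (pc T.X s x y l ^^ pc T.X s y z l) = pc T.X s x z l := by
  intro l
  induction l with
  | nil => intros; rfl
  | cons a l ih =>
    intro hn hs hxl hyl hzl
    cases l with
    | nil => rfl
    | cons b l =>
      simp only [List.nodup_cons, List.mem_cons, not_or] at hn hs hxl hyl hzl
      have h1 := ih (by simp [hn.2.1, hn.2.2]) (by simp [hs.2.1, hs.2.2]) (by simp [hxl.2.1, hxl.2.2])
        (by simp [hyl.2.1, hyl.2.2]) (by simp [hzl.2.1, hzl.2.2])
      have h2 := T.tri s a b hs.1 hn.1.1 (Ne.symm hs.2.1) x y z hx hxl.1 hxl.2.1 hy hyl.1 hyl.2.1 hz hzl.1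
        hzl.2.1
      simp only [pc]
      rw [← h1]
      rw [cr_comm T s a b z x] at h2
      revert h2
      cases crTX T.X s a b x y <;> cases crTX T.X s a b y z <;> cases crTX T.X s a b x z <;>
        cases pc T.X s x y (b :: l) <;> cases pc T.X s y z (b :: l) <;> simp

theorem pr_miss {x y : V} : ∀ l : List V, l.IsChain (fun u v => T.X x y u v = false) → pr T.X x y l = false := by
  intro l
  induction l with
  | nil => intro _; rfl
  | cons a l ih =>
    intro h
    cases l with
    | nil => rfl
    | cons b l =>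
      rw [List.isChain_cons_cons] at h
      simp only [pr]
      rw [h.1, ih h.2]
      rfl

theorem pc_miss {s x y a : V} {l : List V} (h1 : T.X x y s a = false) (h2 : T.X x y s (la a l) = false)
    (h3 : (a :: l).IsChain (fun u v => T.X x y u v = false)) : pc T.X s x y (a :: l) = false := by
  rw [pc_eq, h1, h2, pr_miss T _ h3]
  rfl

/-- the path `l` and the triangle `s x y` -/
theorem pr_tri {s x y : V} (hsx : s ≠ x) (hsy : s ≠ y) (hxy : x ≠ y) : ∀ (l : List V) (a : V), s ∉ a :: l →
    x ∉ a :: l → y ∉ a :: l → (a :: l).IsChain (fun u v => T.X s x u v = false ∧ T.X s y u v = false) →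
    pr T.X x y (a :: l) = crTX T.X s x y a (la a l) := by
  intro l
  induction l with
  | nil =>
    intro a _ _ _ _
    simp only [pr, la]
    have h1 : ∀ c d : V, T.X a a c d = false := fun c d => by
      by_contra h
      rw [Bool.not_eq_false] at h
      exact (T.ne _ _ _ _ h).1 rfl
    unfold crTX
    rw [h1, h1, h1]
    rfl
  | cons b l ih =>
    intro a hs hx hy hc
    rw [List.isChain_cons_cons] at hc
    simp only [pr, la]
    simp only [List.mem_cons, not_or] at hs hx hy
    rw [ih b (by simp [hs.2.1, hs.2.2]) (by simp [hx.2.1, hx.2.2]) (by simp [hy.2.1, hy.2.2]) hc.2]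
    have hl := la_mem l b
    have e1 : la b l ≠ s := by
      rintro rfl
      rcases List.mem_cons.1 hl with h | h
      · exact hs.2.1 h
      · exact hs.2.2 h
    have e2 : la b l ≠ x := by
      rintro rfl
      rcases List.mem_cons.1 hl with h | h
      · exact hx.2.1 h
      · exact hx.2.2 h
    have e3 : la b l ≠ y := by
      rintro rfl
      rcases List.mem_cons.1 hl with h | h
      · exact hy.2.1 h
      · exact hy.2.2 h
    have h2 := T.tri s x y hsx hxy (Ne.symm hsy) a b (la b l) (Ne.symm hs.1) (Ne.symm hx.1) (Ne.symm hy.1)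
      (Ne.symm hs.2.1) (Ne.symm hx.2.1) (Ne.symm hy.2.1) e1 e2 e3
    have h3 : crTX T.X s x y a b = T.X x y a b := by
      unfold crTX
      rw [T.symm2 a b s x, T.symm2 a b x y, T.symm2 a b y s, T.symm1 y s, hc.1.1, hc.1.2]
      cases T.X x y a b <;> rfl
    rw [cr_comm T s x y (la b l) a, h3] at h2
    revert h2
    cases T.X x y a b <;> cases crTX T.X s x y b (la b l) <;> cases crTX T.X s x y a (la b l) <;> simp

/-- the alternation at `s` -/
theorem pc_alt {s x y : V} {ρ : V → ℝ} (hρ : RotAt T s ρ) (hsx : s ≠ x) (hsy : s ≠ y) (hxy : x ≠ y) (l : List V)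
    (a : V) (hs : s ∉ a :: l) (hx : x ∉ a :: l) (hy : y ∉ a :: l) (hal : a ≠ la a l)
    (hc : (a :: l).IsChain (fun u v => T.X s x u v = false ∧ T.X s y u v = false)) :
    pc T.X s x y (a :: l) =
      (btw (ρ a) (ρ (la a l)) (ρ x) ^^ btw (ρ a) (ρ (la a l)) (ρ y)) := by
  have hl := la_mem l a
  have e1 : la a l ≠ s := fun h => hs (h ▸ hl)
  have e2 : la a l ≠ x := fun h => hx (h ▸ hl)
  have e3 : la a l ≠ y := fun h => hy (h ▸ hl)
  simp only [List.mem_cons, not_or] at hs hx hy
  have h1 := hρ.2 a (la a l) x y (Ne.symm hs.1) e1 (Ne.symm hsx) (Ne.symm hsy) hal (Ne.symm hx.1) (Ne.symm hy.1) e2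
    e3 hxy
  rw [← h1, pc_eq, pr_tri T hsx hsy hxy l a (by simp [hs.1, hs.2]) (by simp [hx.1, hx.2]) (by simp [hy.1, hy.2]) hc]
  unfold altX crTX
  rw [T.symm2 s a x y, T.symm2 s (la a l) x y, T.symm2 a (la a l) y s, T.symm1 y s, T.symm2 s y a (la a l)]
  cases T.X x y s a <;> cases T.X a (la a l) s x <;> cases T.X a (la a l) x y <;> cases T.X a (la a l) s y <;>
    cases T.X x y s (la a l) <;> rfl

end H71Y
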