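import Pool.Agent.Lib.H71Y.A

/-!
# H71Y, file B: nested petals at a vertex

`Pet T s ρ H L`: the lists in `L` are disjoint paths in the plane set `H` which together contain all vertices except
`s`; `s` is joined in `H` to the first and to the last vertex of each path, and in the order `ρ` of the rotation at `s`
all last vertices come before all first vertices (or are equal to them). `Pet.sep`: an edge of `H` between two petals
jumps over no other petal.
-/

set_option autoImplicit false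
set_option linter.unusedSectionVars false

namespace H71Y

open H53P H98V

variable {V : Type}

/-- nested petals -/
structure Pet (T : Table V) (s : V) (ρ : V → ℝ) (H : Finset (Sym2 V)) (L : List (List V)) : Prop where
  rot : RotAt T s ρ
  pl : ∀ a b c d, s(a, b) ∈ H → s(c, d) ∈ H → T.X a b c d = false
  mem : ∀ v, (∃ l ∈ L, v ∈ l) ↔ v ≠ s
  nd : ∀ l ∈ L, l.Nodup
  dj : ∀ l ∈ L, ∀ l' ∈ L, l ≠ l' → ∀ v ∈ l, v ∉ l'
  ne : [] ∉ L
  ch : ∀ l ∈ L, l.IsChain fun u v => s(u, v) ∈ H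
  hd : ∀ a l, a :: l ∈ L → s(s, a) ∈ H
  lt : ∀ a l, a :: l ∈ L → s(s, la a l) ∈ H
  ord : ∀ a l a' l', a :: l ∈ L → a' :: l' ∈ L → ρ (la a' l') ≤ ρ a

theorem pc_comm (T : Table V) (s x y : V) : ∀ l : List V, pc T.X s x y l = pc T.X s y x l := by
  intro l
  induction l with
  | nil => rfl
  | cons a l ih =>
    cases l with
    | nil => rfl
    | cons b l =>
      simp only [pc]
      rw [ih, cr_comm T s a b x y]

variable {T : Table V} {s : V} {ρ : V → ℝ} {H : Finset (Sym2 V)} {L : List (List V)}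

theorem Pet.pc_edge (h : Pet T s ρ H L) {a0 : V} {l0 : List V} (h0 : a0 :: l0 ∈ L) {x y : V} (hxy : s(x, y) ∈ H) :
    pc T.X s x y (a0 :: l0) = false := by
  refine pc_miss T (h.pl _ _ _ _ hxy (h.hd _ _ h0)) (h.pl _ _ _ _ hxy (h.lt _ _ h0)) ?_
  exact (h.ch _ h0).imp fun u v huv => h.pl _ _ _ _ hxy huv

theorem pc_self (T : Table V) (s x : V) : ∀ l : List V, pc T.X s x x l = false := by
  have h1 : ∀ c d : V, T.X x x c d = false := fun c d => by
    by_contra h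
    rw [Bool.not_eq_false] at h
    exact (T.ne _ _ _ _ h).1 rfl
  intro l
  induction l with
  | nil => rfl
  | cons a l ih =>
    cases l with
    | nil => rfl
    | cons b l =>
      simp only [pc]
      unfold crTX
      rw [ih, h1, h1, h1]
      rfl

/-- along a path which avoids `a0 :: l0` -/
theorem Pet.pc_path (h : Pet T s ρ H L) {a0 : V} {l0 : List V} (h0 : a0 :: l0 ∈ L) : ∀ (l : List V) (a : V),
    (a :: l).IsChain (fun u v => s(u, v) ∈ H) → (∀ v ∈ a :: l, v ≠ s ∧ v ∉ a0 :: l0) → ∀ x ∈ a :: l,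
    pc T.X s x (la a l) (a0 :: l0) = false := by
  have hn := h.nd _ h0
  have hs : s ∉ a0 :: l0 := fun h1 => (h.mem s).1 ⟨_, h0, h1⟩ rfl
  intro l
  induction l with
  | nil =>
    intro a _ _ x hx
    rw [List.mem_singleton] at hx
    subst hx
    exact pc_self T s x _
  | cons b l ih =>
    intro a hc hm x hx
    rw [List.isChain_cons_cons] at hc
    have h1 := ih b hc.2 (fun v hv => hm v (List.mem_cons_of_mem _ hv))
    rcases List.mem_cons.1 hx with rfl | hx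
    · have h2 := h1 b (by simp)
      have h3 := h.pc_edge h0 hc.1
      have m1 := hm x (by simp)
      have m2 := hm b (by simp)
      have m3 := hm (la b l) (List.mem_cons_of_mem _ (la_mem l b))
      have h4 := pc_add T (s := s) m1.1 m2.1 m3.1 _ hn hs m1.2 m2.2 m3.2
      rw [h2, h3] at h4
      exact h4.symm
    · exact h1 x hx

/-- the order of the last vertices: an edge of `H` between two petals jumps over no other petal -/
theorem Pet.sep (h : Pet T s ρ H L) {a0 a1 a2 : V} {l0 l1 l2 : List V} (h0 : a0 :: l0 ∈ L) (h1 : a1 :: l1 ∈ L)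
    (h2 : a2 :: l2 ∈ L) (h01 : a0 :: l0 ≠ a1 :: l1) (h02 : a0 :: l0 ≠ a2 :: l2) {x y : V} (hx : x ∈ a1 :: l1)
    (hy : y ∈ a2 :: l2) (hxy : x = y ∨ s(x, y) ∈ H) :
    (ρ (la a0 l0) < ρ (la a1 l1) ↔ ρ (la a0 l0) < ρ (la a2 l2)) := by
  have hn := h.nd _ h0
  have hs : s ∉ a0 :: l0 := fun h5 => (h.mem s).1 ⟨_, h0, h5⟩ rfl
  have k0 := la_mem l0 a0
  have k1 := la_mem l1 a1
  have k2 := la_mem l2 a2
  have m1 : ∀ v ∈ a1 :: l1, v ≠ s ∧ v ∉ a0 :: l0 := fun v hv =>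
    ⟨(h.mem v).1 ⟨_, h1, hv⟩, h.dj _ h1 _ h0 (Ne.symm h01) v hv⟩
  have m2 : ∀ v ∈ a2 :: l2, v ≠ s ∧ v ∉ a0 :: l0 := fun v hv =>
    ⟨(h.mem v).1 ⟨_, h2, hv⟩, h.dj _ h2 _ h0 (Ne.symm h02) v hv⟩
  have p1 := h.pc_path h0 l1 a1 (h.ch _ h1) m1 x hx
  have p2 := h.pc_path h0 l2 a2 (h.ch _ h2) m2 y hy
  have p3 : pc T.X s x y (a0 :: l0) = false := by
    rcases hxy with rfl | hxy
    · exact pc_self T s x _
    · exact h.pc_edge h0 hxy
  have n1 := m1 _ k1
  have n2 := m2 _ k2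
  have q1 := pc_add T (s := s) n1.1 (m1 x hx).1 (m2 y hy).1 _ hn hs n1.2 (m1 x hx).2 (m2 y hy).2
  rw [pc_comm T s (la a1 l1) x, p1, p3] at q1
  have q2 := pc_add T (s := s) n1.1 (m2 y hy).1 n2.1 _ hn hs n1.2 (m2 y hy).2 n2.2
  rw [← q1, p2] at q2
  have q3 : pc T.X s (la a1 l1) (la a2 l2) (a0 :: l0) = false := q2.symm
  by_cases e12 : la a1 l1 = la a2 l2
  · rw [e12]
  have o1 := h.ord a0 l0 a1 l1 h0 h1
  have o2 := h.ord a0 l0 a2 l2 h0 h2
  have o0 := h.ord a0 l0 a0 l0 h0 h0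
  have ha0 : a0 ≠ s := (h.mem a0).1 ⟨_, h0, by simp⟩
  by_cases e0 : a0 = la a0 l0
  · rw [← e0]
    exact ⟨fun h5 => absurd h5 (not_lt.2 o1), fun h5 => absurd h5 (not_lt.2 o2)⟩
  have hb0 : la a0 l0 ≠ s := (h.mem _).1 ⟨_, h0, k0⟩
  have inj := h.rot.1
  have r0 : ρ (la a0 l0) < ρ a0 := lt_of_le_of_ne o0 fun h5 => e0 (inj _ _ hb0 ha0 h5).symm
  have r1 : ρ (la a1 l1) < ρ a0 := lt_of_le_of_ne o1 fun h5 => by
    have h6 := inj _ _ n1.1 ha0 h5
    exact n1.2 (h6 ▸ by simp)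
  have r2 : ρ (la a2 l2) < ρ a0 := lt_of_le_of_ne o2 fun h5 => by
    have h6 := inj _ _ n2.1 ha0 h5
    exact n2.2 (h6 ▸ by simp)
  have q4 := pc_alt T h.rot (Ne.symm n1.1) (Ne.symm n2.1) e12 l0 a0 hs n1.2 n2.2 e0
    ((h.ch _ h0).imp fun u v huv => ⟨h.pl _ _ _ _ (h.lt _ _ h1) huv, h.pl _ _ _ _ (h.lt _ _ h2) huv⟩)
  rw [q3] at q4
  have bt : ∀ c : ℝ, c < ρ a0 → H53P.btw (ρ a0) (ρ (la a0 l0)) c = decide (ρ (la a0 l0) < c) := by
    intro c hc
    unfold H53P.btw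
    rw [decide_eq_false (fun h5 => absurd h5.1 (not_lt.2 hc.le)), Bool.false_or]
    exact decide_eq_decide.2 ⟨fun h5 => h5.1, fun h5 => ⟨h5, hc⟩⟩
  rw [bt _ r1, bt _ r2] at q4
  by_cases u1 : ρ (la a0 l0) < ρ (la a1 l1) <;> by_cases u2 : ρ (la a0 l0) < ρ (la a2 l2)
  · exact ⟨fun _ => u2, fun _ => u1⟩
  · rw [decide_eq_true u1, decide_eq_false u2] at q4
    exact absurd q4 (by simp)
  · rw [decide_eq_false u1, decide_eq_true u2] at q4
    exact absurd q4 (by simp)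
  · exact ⟨fun h5 => absurd h5 u1, fun h5 => absurd h5 u2⟩

end H71Y
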