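import Pool.Agent.Lib.H71Y.B

/-!
# H71Y, file C: a long path which meets all petals

`GH s H`: the graph of the edges of `H` which avoid `s`. If it connects all vertices except `s`, then a path from the
last vertex of the first petal to the last vertex of the last petal meets all petals (`Pet.walk_sep`). So there is a path
in `GH s H`, between two neighbours of `s` in `H`, whose number of vertices is at least the square root of `|V| - 1`
(`Pet.long`).
-/

set_option autoImplicit false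
set_option linter.unusedSectionVars false

namespace H71Y

open H53P H98V Finset

variable {V : Type}

/-- the edges of `H` which avoid `s` -/
def GH (s : V) (H : Finset (Sym2 V)) : SimpleGraph V where
  Adj u v := (u ≠ v ∧ u ≠ s ∧ v ≠ s) ∧ s(u, v) ∈ H
  symm := ⟨fun u v h => ⟨⟨h.1.1.symm, h.1.2.2, h.1.2.1⟩, by rw [Sym2.eq_swap]; exact h.2⟩⟩
  loopless := ⟨fun u h => h.1.1 rfl⟩

variable {T : Table V} {s : V} {ρ : V → ℝ} {H : Finset (Sym2 V)} {L : List (List V)}

/-- the path of a chain -/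
theorem walk_of_chain (s : V) (H : Finset (Sym2 V)) : ∀ (l : List V) (a : V),
    (a :: l).IsChain (fun u v => s(u, v) ∈ H) → (a :: l).Nodup → s ∉ a :: l →
    ∃ p : (GH s H).Walk a (la a l), p.support = a :: l := by
  intro l
  induction l with
  | nil => exact fun a _ _ _ => ⟨SimpleGraph.Walk.nil, rfl⟩
  | cons b l ih =>
    intro a hc hn hs
    rw [List.isChain_cons_cons] at hc
    rw [List.nodup_cons] at hn
    simp only [List.mem_cons, not_or] at hs hn
    obtain ⟨p, hp⟩ := ih b hc.2 hn.2 (by simp [hs.2.1, hs.2.2])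
    have hab : (GH s H).Adj a b := ⟨⟨hn.1.1, Ne.symm hs.1, Ne.symm hs.2.1⟩, hc.1⟩
    show ∃ p : (GH s H).Walk a (la b l), p.support = a :: b :: l
    exact ⟨SimpleGraph.Walk.cons hab p, by rw [SimpleGraph.Walk.support_cons, hp]⟩

/-- a walk which avoids the petal `a0 :: l0` stays on one side of it -/
theorem Pet.walk_sep (h : Pet T s ρ H L) {a0 : V} {l0 : List V} (h0 : a0 :: l0 ∈ L) {u v : V}
    (p : (GH s H).Walk u v) : (∀ w ∈ p.support, w ∉ a0 :: l0) → ∀ (a1 a2 : V) (l1 l2 : List V), a1 :: l1 ∈ L →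
    a2 :: l2 ∈ L → u ∈ a1 :: l1 → v ∈ a2 :: l2 →
    (ρ (la a0 l0) < ρ (la a1 l1) ↔ ρ (la a0 l0) < ρ (la a2 l2)) := by
  have key : ∀ {a1 : V} {l1 : List V} {w : V}, w ∈ a1 :: l1 → w ∉ a0 :: l0 → a0 :: l0 ≠ a1 :: l1 := by
    intro a1 l1 w h1 h2 h3
    rw [h3] at h2
    exact h2 h1
  induction p with
  | nil =>
    intro hp a1 a2 l1 l2 h1 h2 hu hv
    exact h.sep h0 h1 h2 (key hu (hp _ (by simp))) (key hv (hp _ (by simp))) hu hv (Or.inl rfl)
  | @cons u w v huw p ih =>
    intro hp a1 a2 l1 l2 h1 h2 hu hv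
    obtain ⟨l3, h3, hw⟩ := (h.mem w).2 huw.1.2.2
    cases l3 with
    | nil => exact absurd h3 h.ne
    | cons a3 l3 =>
      have hp1 : u ∉ a0 :: l0 := hp u (by simp)
      have hp2 : ∀ z ∈ p.support, z ∉ a0 :: l0 := fun z hz =>
        hp z (by rw [SimpleGraph.Walk.support_cons]; exact List.mem_cons_of_mem _ hz)
      have hp3 : w ∉ a0 :: l0 := hp2 w (SimpleGraph.Walk.start_mem_support p)
      exact (h.sep h0 h1 h3 (key hu hp1) (key hw hp3) hu hw (Or.inr huw.2)).trans (ih hp2 a3 a2 l3 l2 h3 h2 hw hv)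

open Classical in
/-- a long path between two neighbours of `s` -/
theorem Pet.long [Fintype V] (h : Pet T s ρ H L) (hV : 3 ≤ Fintype.card V)
    (hcon : ∀ u v, u ≠ s → v ≠ s → (GH s H).Reachable u v) :
    ∃ (u v : V) (p : (GH s H).Walk u v), p.IsPath ∧ u ≠ v ∧ u ≠ s ∧ s(s, u) ∈ H ∧ s(s, v) ∈ H ∧
      Fintype.card V - 1 ≤ p.support.length ^ 2 := by
  obtain ⟨P, hP⟩ : ∃ P : Finset (List V), P = L.toFinset := ⟨_, rfl⟩
  have hPL : ∀ l, l ∈ P ↔ l ∈ L := fun l => by rw [hP, List.mem_toFinset]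
  have hone : ∃ v : V, v ≠ s := by
    by_contra hcon'
    push Not at hcon'
    have : Fintype.card V ≤ 1 := Fintype.card_le_one_iff.2 fun a b => by rw [hcon' a, hcon' b]
    omega
  have hPne : P.Nonempty := by
    obtain ⟨v, hv⟩ := hone
    obtain ⟨l, hl, -⟩ := (h.mem v).2 hv
    exact ⟨l, (hPL l).2 hl⟩
  have hcard : Fintype.card V - 1 = (univ.erase s).card := by
    rw [card_erase_of_mem (mem_univ s), card_univ]
  -- the longest petal
  obtain ⟨m, hm, hmax⟩ := exists_max_image P List.length hPne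
  have hcount : Fintype.card V - 1 ≤ P.card * m.length := by
    rw [hcard]
    have h1 : univ.erase s ⊆ P.biUnion List.toFinset := by
      intro v hv
      obtain ⟨l, hl, hvl⟩ := (h.mem v).2 (mem_erase.1 hv).1
      exact mem_biUnion.2 ⟨l, (hPL l).2 hl, List.mem_toFinset.2 hvl⟩
    refine (card_le_card h1).trans (card_biUnion_le_card_mul _ _ _ fun l hl => ?_)
    exact (List.toFinset_card_le l).trans (hmax l hl)
  obtain ⟨f, hf⟩ : ∃ f : List V → ℝ, ∀ a l, f (a :: l) = ρ (la a l) := by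
    refine ⟨fun l => match l with
      | [] => 0
      | a :: l => ρ (la a l), fun a l => rfl⟩
  have hcons : ∀ l ∈ P, ∃ a l', l = a :: l' := by
    intro l hl
    cases l with
    | nil => exact absurd ((hPL _).1 hl) h.ne
    | cons a l' => exact ⟨a, l', rfl⟩
  rcases Nat.lt_or_ge m.length P.card with hlt | hge
  · -- many petals
    obtain ⟨x, hx, hxmin⟩ := exists_min_image P f hPne
    obtain ⟨y, hy, hymax⟩ := exists_max_image P f hPne
    obtain ⟨a1, l1, rfl⟩ := hcons x hx
    obtain ⟨a2, l2, rfl⟩ := hcons y hy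
    have hm1 : 1 ≤ m.length := by
      obtain ⟨a, l, rfl⟩ := hcons m hm
      simp
    have h1L := (hPL _).1 hx
    have h2L := (hPL _).1 hy
    have b1 : la a1 l1 ≠ s := (h.mem _).1 ⟨_, h1L, la_mem l1 a1⟩
    have b2 : la a2 l2 ≠ s := (h.mem _).1 ⟨_, h2L, la_mem l2 a2⟩
    -- the last vertex determines the petal
    have huniq : ∀ (c1 c2 : V) (k1 k2 : List V), c1 :: k1 ∈ L → c2 :: k2 ∈ L →
        ρ (la c1 k1) = ρ (la c2 k2) → c1 :: k1 = c2 :: k2 := by
      intro c1 c2 k1 k2 g1 g2 g3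
      by_contra g4
      have g5 := h.rot.1 _ _ ((h.mem _).1 ⟨_, g1, la_mem k1 c1⟩) ((h.mem _).1 ⟨_, g2, la_mem k2 c2⟩) g3
      exact h.dj _ g1 _ g2 g4 _ (la_mem k1 c1) (g5 ▸ la_mem k2 c2)
    have h12 : la a1 l1 ≠ la a2 l2 := by
      intro e
      have hall : ∀ l ∈ P, l = a1 :: l1 := by
        intro l hl
        obtain ⟨c, k, rfl⟩ := hcons l hl
        have g1 := hxmin _ hl
        have g2 := hymax _ hl
        rw [hf, hf] at g1 g2
        rw [← e] at g2
        exact huniq _ _ _ _ ((hPL _).1 hl) h1L (le_antisymm g2 g1)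
      have : P.card ≤ 1 := card_le_one.2 fun l hl l' hl' => by rw [hall l hl, hall l' hl']
      omega
    obtain ⟨q⟩ := hcon _ _ b1 b2
    obtain ⟨p, hp⟩ : ∃ p : (GH s H).Walk (la a1 l1) (la a2 l2), p.IsPath := ⟨q.toPath, q.toPath.2⟩
    have hmeet : ∀ l ∈ P, ∃ w ∈ p.support, w ∈ l := by
      intro l hl
      by_cases e1 : l = a1 :: l1
      · exact ⟨_, SimpleGraph.Walk.start_mem_support p, e1 ▸ la_mem l1 a1⟩
      by_cases e2 : l = a2 :: l2
      · exact ⟨_, SimpleGraph.Walk.end_mem_support p, e2 ▸ la_mem l2 a2⟩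
      obtain ⟨a0, l0, rfl⟩ := hcons l hl
      by_contra hno
      push Not at hno
      have h0L := (hPL _).1 hl
      have h3 := h.walk_sep h0L p hno a1 a2 l1 l2 h1L h2L (la_mem l1 a1) (la_mem l2 a2)
      have g1 := hxmin _ hl
      have g2 := hymax _ hl
      rw [hf, hf] at g1 g2
      have g3 : ρ (la a0 l0) < ρ (la a2 l2) := lt_of_le_of_ne g2 fun e => e2 (huniq _ _ _ _ h0L h2L e)
      exact absurd (h3.2 g3) (not_lt.2 g1)
    have : Nonempty V := ⟨s⟩
    choose! w hw1 hw2 using hmeet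
    have hcardP : P.card ≤ p.support.length := by
      refine le_trans ?_ (List.toFinset_card_le p.support)
      refine card_le_card_of_injOn w (fun l hl => List.mem_toFinset.2 (hw1 l hl)) ?_
      intro l hl l' hl' hll
      by_contra hne
      exact h.dj _ ((hPL _).1 hl) _ ((hPL _).1 hl') hne _ (hw2 l hl) (hll ▸ hw2 l' hl')
    refine ⟨_, _, p, hp, h12, b1, h.lt _ _ h1L, h.lt _ _ h2L, hcount.trans ?_⟩
    calc P.card * m.length ≤ p.support.length * p.support.length := Nat.mul_le_mul hcardP (hlt.le.trans hcardP)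
      _ = p.support.length ^ 2 := by ring
  · -- a long petal
    obtain ⟨a, l, rfl⟩ := hcons m hm
    have hL := (hPL _).1 hm
    have hs : s ∉ a :: l := fun h5 => (h.mem s).1 ⟨_, hL, h5⟩ rfl
    obtain ⟨p, hp⟩ := walk_of_chain s H l a (h.ch _ hL) (h.nd _ hL) hs
    have hpl : p.support.length = (a :: l).length := by rw [hp]
    have h2 : Fintype.card V - 1 ≤ p.support.length ^ 2 := by
      rw [hpl]
      calc Fintype.card V - 1 ≤ P.card * (a :: l).length := hcount
        _ ≤ (a :: l).length * (a :: l).length := Nat.mul_le_mul hge le_rfl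
        _ = (a :: l).length ^ 2 := by ring
    refine ⟨_, _, p, ?_, ?_, fun e => hs (e ▸ by simp), h.hd _ _ hL, h.lt _ _ hL, h2⟩
    · rw [SimpleGraph.Walk.isPath_def, hp]
      exact h.nd _ hL
    · intro e
      cases l with
      | nil =>
        rw [hpl] at h2
        simp only [List.length_cons, List.length_nil] at h2
        omega
      | cons b l =>
        have h3 := h.nd _ hL
        rw [List.nodup_cons] at h3
        exact h3.1 (e ▸ la_mem l b)

end H71Y
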