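import Pool.Agent.Lib.H71Y.C
import Pool.Agent.Lib.H98W.FIN
import Pool.Agent.Lib.H98V.T7
import Pool.Agent.Lib.H47T.H

/-!
# H71Y, file D: petals at every vertex, from Theorem T and the twin of a vertex

Theorem T (`H47T.theoremT`) for the table with a twin of `s` at the beginning of the order `ρ` and the tiny edge between
`s` and its twin gives petals at `s`. They are contained in a maximal plane set, and `s` is not a cut vertex of it.
-/

set_option autoImplicit false
set_option linter.unusedSectionVars false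

namespace H71Y

open Finset H53P H98P H98Z H98M H66N H98V H98W

variable {V : Type}

theorem unmap1 : ∀ l : List (Option V), none ∉ l → ∃ k : List V, l = k.map some := by
  intro l
  induction l with
  | nil => exact fun _ => ⟨[], rfl⟩
  | cons a l ih =>
    intro h
    rw [List.mem_cons, not_or] at h
    obtain ⟨k, hk⟩ := ih h.2
    cases a with
    | none => exact absurd rfl h.1
    | some a => exact ⟨a :: k, by rw [hk]; rfl⟩

theorem unmap2 : ∀ L : List (List (Option V)), (∀ l ∈ L, none ∉ l) → ∃ K : List (List V),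
    L = K.map (List.map some) := by
  intro L
  induction L with
  | nil => exact fun _ => ⟨[], rfl⟩
  | cons a L ih =>
    intro h
    obtain ⟨K, hK⟩ := ih fun l hl => h l (List.mem_cons_of_mem _ hl)
    obtain ⟨k, hk⟩ := unmap1 a (h a (by simp))
    exact ⟨k :: K, by rw [hK, hk]; rfl⟩

theorem chain_last {R : Option V → Option V → Prop} : ∀ (l : List V) (a : V),
    (some a :: (l.map some ++ [none])).IsChain R →
    (a :: l).IsChain (fun u v => R (some u) (some v)) ∧ R (some (la a l)) none := by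
  intro l
  induction l with
  | nil =>
    intro a h
    simp only [List.map_nil, List.nil_append, List.isChain_cons_cons, List.isChain_singleton, and_true] at h
    exact ⟨by simp, h⟩
  | cons b l ih =>
    intro a h
    simp only [List.map_cons, List.cons_append, List.isChain_cons_cons] at h
    obtain ⟨h1, h2⟩ := ih b h.2
    exact ⟨by rw [List.isChain_cons_cons]; exact ⟨h.1, h1⟩, h2⟩

theorem x_adj (T : Table V) (a b c : V) : T.X a b a c = false ∧ T.X a b c a = false ∧ T.X b a a c = false := by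
  refine ⟨?_, ?_, ?_⟩ <;> by_contra h <;> rw [Bool.not_eq_false] at h <;> have h1 := T.ne _ _ _ _ h
  · exact h1.2.2.1 rfl
  · exact h1.2.2.2.1 rfl
  · exact h1.2.2.2.2.1 rfl

variable [Fintype V] [DecidableEq V]

/-- a maximal plane set -/
theorem exists_max (T : Table V) {F : Finset (Sym2 V)} (hF : Plane (crossT T) F) (hF' : F ⊆ LW univ) :
    ∃ H, F ⊆ H ∧ H ⊆ LW univ ∧ Plane (crossT T) H ∧ Un (crossT T) univ H = ∅ := by
  classical
  obtain ⟨S, hS⟩ : ∃ S : Finset (Finset (Sym2 V)),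
      S = univ.filter fun H => F ⊆ H ∧ H ⊆ LW univ ∧ Plane (crossT T) H := ⟨_, rfl⟩
  have hmem : ∀ H, H ∈ S ↔ F ⊆ H ∧ H ⊆ LW univ ∧ Plane (crossT T) H := fun H => by
    rw [hS, mem_filter]
    simp
  obtain ⟨H, hH, hmax⟩ := exists_max_image S Finset.card ⟨F, (hmem F).2 ⟨subset_rfl, hF', hF⟩⟩
  obtain ⟨h1, h2, h3⟩ := (hmem H).1 hH
  refine ⟨H, h1, h2, h3, ?_⟩
  by_contra hne
  obtain ⟨e, he⟩ := nonempty_iff_ne_empty.2 hne
  obtain ⟨e1, e2, e3⟩ := mem_un.1 he
  have hee : ¬ crossT T e e := by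
    induction e with
    | _ a b => exact (geo_table T).adj a b b
  have h4 : insert e H ∈ S := by
    refine (hmem _).2 ⟨h1.trans (subset_insert _ _), insert_subset e1 h2, ?_⟩
    intro x hx y hy
    rcases mem_insert.1 hx with rfl | hx' <;> rcases mem_insert.1 hy with rfl | hy'
    · exact hee
    · exact e2 y hy'
    · exact fun h5 => e2 x hx' (crossT_symm T _ _ h5)
    · exact h3 x hx' y hy'
  have h5 := hmax _ h4
  rw [card_insert_of_notMem e3] at h5
  omega

/-- a maximal plane set without `s` is connected -/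
theorem conn_max (T : Table V) {H : Finset (Sym2 V)} (hH : Plane (crossT T) H) (hH' : H ⊆ LW univ)
    (hun : Un (crossT T) univ H = ∅) (s : V) : ∀ u v, u ≠ s → v ≠ s → (GH s H).Reachable u v := by
  classical
  intro u v hu hv
  by_contra hno
  have hdisc : Disc (univ.erase s) (H.filter fun e => s ∉ e) := by
    refine ⟨univ.filter fun w => w ≠ s ∧ (GH s H).Reachable u w, univ.filter fun w => w ≠ s ∧
      ¬ (GH s H).Reachable u w, ⟨u, ?_⟩, ⟨v, ?_⟩, ?_, ?_, ?_⟩
    · rw [mem_filter]
      exact ⟨mem_univ _, hu, SimpleGraph.Reachable.refl u⟩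
    · rw [mem_filter]
      exact ⟨mem_univ _, hv, hno⟩
    · rw [disjoint_left]
      intro w h1 h2
      exact (mem_filter.1 h2).2.2 (mem_filter.1 h1).2.2
    · ext w
      simp only [mem_union, mem_filter, mem_univ, true_and, mem_erase, and_true]
      by_cases h1 : (GH s H).Reachable u w <;> simp [h1]
    · intro x hx y hy hxy
      obtain ⟨-, hx1, hx2⟩ := mem_filter.1 hx
      obtain ⟨-, hy1, hy2⟩ := mem_filter.1 hy
      have h1 := (mem_filter.1 hxy).1
      have h2 := (mem_LW.1 (hH' h1)).2.2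
      exact hy2 (hx2.trans (SimpleGraph.Adj.reachable ⟨⟨h2, hx1, hy1⟩, h1⟩))
  have hacy : Acy (crossT T) (Un (crossT T) univ H) := by
    by_cases hd : Disc univ H
    · exact hd_table T univ H hH' hH hd
    · exact hc_table T univ H s hH' hH (mem_univ s) hd hdisc
  have := nonempty_of_acyN (acyN_of_acy hacy 0)
  rw [hun] at this
  exact not_nonempty_empty this

/-- the petals of a theta graph between `s` and its twin -/
theorem pet_of (T : Table V) {s : V} {ρ : V → ℝ} (hρ : RotAt T s ρ) {π : ℝ} (hπ1 : ∀ d, d ≠ s → π < ρ d)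
    {T' : Table (Option V)} (t1 : ∀ a b c d, T'.X (some a) (some b) (some c) (some d) = T.X a b c d)
    (t2 : ∀ b c d, c ≠ s → d ≠ s → T'.X none (some b) (some c) (some d) = T.X s b c d)
    (t4 : ∀ b d, b ≠ s → d ≠ s → b ≠ d → T'.X none (some b) (some s) (some d) = H53P.btw π (ρ b) (ρ d))
    {G : Finset (Sym2 (Option V))} (hG : Plane (crossT T') G) (hG0 : ∀ v, s(v, v) ∉ G)
    {L' : List (List (Option V))} (hL : H47T.Th (some s) none G L') :
    ∃ (F : Finset (Sym2 V)) (K : List (List V)), Pet T s ρ F K ∧ Plane (crossT T) F ∧ F ⊆ LW univ ∧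
      K.flatten.Nodup ∧ G.card ≤ F.card + 2 := by
  classical
  obtain ⟨g1, g2, g3, g4⟩ := hL
  have hX : ∀ a b c d, s(a, b) ∈ G → s(c, d) ∈ G → T'.X a b c d = false := by
    intro a b c d h1 h2
    rw [← Bool.not_eq_true, ← crossT_mk]
    exact hG _ h1 _ h2
  obtain ⟨K, rfl⟩ := unmap2 L' fun l hl hn =>
    ((g3 none).1 (List.mem_flatten.2 ⟨l, hl, hn⟩)).2 rfl
  rw [← List.map_flatten] at g2 g3
  have gm : ∀ v, v ∈ K.flatten ↔ v ≠ s := by
    intro v
    have h1 := g3 (some v)
    rw [List.mem_map_of_injective (Option.some_injective V)] at h1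
    rw [h1]
    simp
  have gn : K.flatten.Nodup := List.Nodup.of_map _ g2
  have gn0 := gn
  rw [List.nodup_flatten] at gn
  have hch : ∀ a l, a :: l ∈ K → s(some s, some a) ∈ G ∧ (a :: l).IsChain (fun u v => s(some u, some v) ∈ G) ∧
      s(some (la a l), none) ∈ G := by
    intro a l hl
    have h1 := g4 _ (List.mem_map_of_mem hl)
    simp only [List.map_cons, List.cons_append, List.isChain_cons_cons] at h1
    exact ⟨h1.1, chain_last l a h1.2⟩
  obtain ⟨F, hF⟩ : ∃ F : Finset (Sym2 V), F = (LW univ).filter fun e => Sym2.map some e ∈ G ∨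
      ∃ b, b ≠ s ∧ e = s(s, b) ∧ s(some b, none) ∈ G := ⟨_, rfl⟩
  have hFm : ∀ e, e ∈ F ↔ e ∈ LW univ ∧ (Sym2.map some e ∈ G ∨
      ∃ b, b ≠ s ∧ e = s(s, b) ∧ s(some b, none) ∈ G) := fun e => by rw [hF, mem_filter]
  -- the order of the neighbours of the two poles
  have hord : ∀ a b, a ≠ s → b ≠ s → s(some s, some a) ∈ G → s(some b, none) ∈ G → ρ b ≤ ρ a := by
    intro a b k1 k2 h3 h4
    by_contra h5
    rw [not_le] at h5
    have k3 : b ≠ a := fun e => absurd h5 (by rw [e]; exact lt_irrefl _)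
    have h6 := hX _ _ _ _ (by rw [Sym2.eq_swap]; exact h4) h3
    rw [t4 _ _ k2 k1 k3] at h6
    unfold H53P.btw at h6
    rw [decide_eq_true (⟨hπ1 a k1, h5⟩ : π < ρ a ∧ ρ a < ρ b)] at h6
    exact absurd h6 (by simp)
  have hFX : ∀ a b c d, s(a, b) ∈ F → s(c, d) ∈ F → T.X a b c d = false := by
    -- an old edge and an edge at the twin
    have h2 : ∀ b a c : V, b ≠ s → s(some b, none) ∈ G → s(some a, some c) ∈ G → T.X s b a c = false := by
      intro b a c hb h3 h4
      by_cases ea : a = s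
      · rw [ea]
        exact (x_adj T s b c).1
      by_cases ec : c = s
      · rw [ec]
        exact (x_adj T s b a).2.1
      rw [← t2 b a c ea ec]
      exact hX _ _ _ _ (by rw [Sym2.eq_swap]; exact h3) h4
    intro a b c d h3 h4
    rcases ((hFm _).1 h3).2 with h5 | ⟨x, hx, hx1, hx2⟩ <;> rcases ((hFm _).1 h4).2 with h6 | ⟨y, hy, hy1, hy2⟩
    · rw [← t1]
      exact hX _ _ _ _ h5 h6
    · rw [Sym2.eq_iff] at hy1
      rcases hy1 with ⟨rfl, rfl⟩ | ⟨rfl, rfl⟩
      · rw [T.symm2]
        exact h2 _ _ _ hy hy2 h5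
      · rw [T.symm2, T.symm1]
        exact h2 _ _ _ hy hy2 h5
    · rw [Sym2.eq_iff] at hx1
      rcases hx1 with ⟨rfl, rfl⟩ | ⟨rfl, rfl⟩
      · exact h2 _ _ _ hx hx2 h6
      · rw [T.symm1]
        exact h2 _ _ _ hx hx2 h6
    · rw [Sym2.eq_iff] at hx1 hy1
      rcases hx1 with ⟨rfl, rfl⟩ | ⟨rfl, rfl⟩ <;> rcases hy1 with ⟨rfl, rfl⟩ | ⟨rfl, rfl⟩
      · exact (x_adj T _ _ _).1
      · exact (x_adj T _ _ _).2.1
      · exact (x_adj T _ _ _).2.2
      · rw [T.symm1]
        exact (x_adj T _ _ _).2.1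
  have hFP : Plane (crossT T) F := by
    intro e he f hf hef
    obtain ⟨a, b, c, d, rfl, rfl, h3⟩ := hef
    rw [hFX a b c d he hf] at h3
    exact absurd h3 (by simp)
  have hne : [] ∉ K := fun h5 => g1 _ (List.mem_map_of_mem h5) rfl
  have hnd : ∀ l ∈ K, l.Nodup := gn.1
  have hKs : ∀ l ∈ K, ∀ v ∈ l, v ≠ s := fun l hl v hv => (gm v).1 (List.mem_flatten.2 ⟨l, hl, hv⟩)
  refine ⟨F, K, ⟨hρ, hFX, fun v => ?_, hnd, ?_, hne, ?_, ?_, ?_, ?_⟩, hFP, by rw [hF]; exact filter_subset _ _,
    gn0, ?_⟩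
  · rw [← gm v, List.mem_flatten]
  · intro l hl l' hl' hll v hv hv'
    have hsym : Std.Symm (List.Disjoint (α := V)) := ⟨fun _ _ h => List.Disjoint.symm h⟩
    exact List.Pairwise.forall gn.2 hl hl' hll hv hv'
  · intro l hl
    cases l with
    | nil => exact absurd hl hne
    | cons a l =>
      have h5 := (hch a l hl).2.1
      have h6 := hnd _ hl
      have h8 : (a :: l).IsChain (fun u v => s(some u, some v) ∈ G ∧ u ≠ v) := by
        rw [List.isChain_iff_getElem] at h5 ⊢
        intro i hi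
        refine ⟨h5 i hi, fun h9 => ?_⟩
        have := (List.Nodup.getElem_inj_iff h6).1 h9
        omega
      refine h8.imp fun u v huv => (hFm _).2 ⟨mem_LW.2 ⟨mem_univ _, mem_univ _, huv.2⟩, Or.inl huv.1⟩
  · intro a l hl
    refine (hFm _).2 ⟨mem_LW.2 ⟨mem_univ _, mem_univ _, Ne.symm (hKs _ hl a (by simp))⟩, Or.inl ?_⟩
    exact (hch a l hl).1
  · intro a l hl
    have h5 := hKs _ hl _ (la_mem l a)
    exact (hFm _).2 ⟨mem_LW.2 ⟨mem_univ _, mem_univ _, Ne.symm h5⟩, Or.inr ⟨_, h5, rfl, (hch a l hl).2.2⟩⟩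
  · intro a l a' l' hl hl'
    exact hord _ _ (hKs _ hl a (by simp)) (hKs _ hl' _ (la_mem l' a')) (hch a l hl).1 (hch a' l' hl').2.2
  · -- the number of edges
    obtain ⟨A, hA⟩ : ∃ A : Finset (Sym2 V), A = (LW univ).filter fun e => Sym2.map some e ∈ G := ⟨_, rfl⟩
    obtain ⟨B, hB⟩ : ∃ B : Finset V, B = univ.filter fun b => b ≠ s ∧ s(some b, none) ∈ G := ⟨_, rfl⟩
    have hinj : Function.Injective fun b : V => s(s, b) := by
      intro b c h
      simp only [Sym2.eq_iff] at h
      rcases h with ⟨-, h⟩ | ⟨h1, h2⟩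
      · exact h
      · rw [h2, ← h1]
    have hBc : (B.image fun b => s(s, b)).card = B.card := card_image_of_injective _ hinj
    have hAF : A ∪ (B.image fun b => s(s, b)) ⊆ F := by
      intro e he
      rcases mem_union.1 he with h | h
      · rw [hA, mem_filter] at h
        exact (hFm e).2 ⟨h.1, Or.inl h.2⟩
      · obtain ⟨b, hb, rfl⟩ := mem_image.1 h
        rw [hB, mem_filter] at hb
        exact (hFm _).2 ⟨mem_LW.2 ⟨mem_univ _, mem_univ _, Ne.symm hb.2.1⟩, Or.inr ⟨b, hb.2.1, rfl, hb.2.2⟩⟩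
    have hI : (A ∩ (B.image fun b => s(s, b))).card ≤ 1 := by
      rw [card_le_one]
      intro e he e' he'
      obtain ⟨h1, h2⟩ := mem_inter.1 he
      obtain ⟨h1', h2'⟩ := mem_inter.1 he'
      obtain ⟨b, hb, rfl⟩ := mem_image.1 h2
      obtain ⟨c, hc, rfl⟩ := mem_image.1 h2'
      rw [hB, mem_filter] at hb hc
      rw [hA, mem_filter] at h1 h1'
      have k1 := hord b c hb.2.1 hc.2.1 h1.2 hc.2.2
      have k2 := hord c b hc.2.1 hb.2.1 h1'.2 hb.2.2
      rw [hρ.1 b c hb.2.1 hc.2.1 (le_antisymm k2 k1)]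
    have hGs : G ⊆ insert s(some s, none) (A.image (Sym2.map some) ∪ B.image fun b => s(some b, none)) := by
      intro e he
      rw [mem_insert, mem_union]
      induction e with
      | _ a b =>
        rcases a with _ | a <;> rcases b with _ | b
        · exact absurd he (hG0 none)
        · by_cases hb : b = s
          · subst hb
            exact Or.inl Sym2.eq_swap
          · refine Or.inr (Or.inr (mem_image.2 ⟨b, ?_, Sym2.eq_swap⟩))
            rw [hB, mem_filter]
            exact ⟨mem_univ _, hb, by rw [Sym2.eq_swap]; exact he⟩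
        · by_cases ha : a = s
          · subst ha
            exact Or.inl rfl
          · refine Or.inr (Or.inr (mem_image.2 ⟨a, ?_, rfl⟩))
            rw [hB, mem_filter]
            exact ⟨mem_univ _, ha, he⟩
        · refine Or.inr (Or.inl (mem_image.2 ⟨s(a, b), ?_, rfl⟩))
          rw [hA, mem_filter]
          refine ⟨mem_LW.2 ⟨mem_univ _, mem_univ _, ?_⟩, he⟩
          rintro rfl
          exact hG0 _ he
    have c1 := card_le_card hGs
    have c2 := card_insert_le (s(some s, none)) (A.image (Sym2.map some) ∪ B.image fun b => s(some b, none))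
    have c3 := card_union_le (A.image (Sym2.map some)) (B.image fun b => s(some b, none))
    have c4 : (A.image (Sym2.map some)).card ≤ A.card := card_image_le
    have c5 : (B.image fun b => (s(some b, none) : Sym2 (Option V))).card ≤ B.card := card_image_le
    have c6 := card_union_add_card_inter A (B.image fun b => s(s, b))
    have c7 := card_le_card hAF
    omega

theorem Pet.mono {T : Table V} {s : V} {ρ : V → ℝ} {F H : Finset (Sym2 V)} {K : List (List V)}
    (h : Pet T s ρ F K) (hFH : F ⊆ H) (hH : Plane (crossT T) H) : Pet T s ρ H K := by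
  refine ⟨h.rot, ?_, h.mem, h.nd, h.dj, h.ne, fun l hl => (h.ch l hl).imp fun a b hab => hFH hab,
    fun a l hl => hFH (h.hd a l hl), fun a l hl => hFH (h.lt a l hl), h.ord⟩
  intro a b c d h5 h6
  rw [← Bool.not_eq_true, ← crossT_mk]
  exact hH _ h5 _ h6

/-- a cut of the rotation at `s` and a table with a twin of `s` at the beginning -/
theorem exists_twin (T : Table V) (hV : 3 ≤ Fintype.card V) (s : V) : ∃ (ρ : V → ℝ) (π : ℝ) (T' : Table (Option V)),
    RotAt T s ρ ∧ (∀ d, d ≠ s → π < ρ d) ∧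
    (∀ a b c d, T'.X (some a) (some b) (some c) (some d) = T.X a b c d) ∧
    (∀ b c d, c ≠ s → d ≠ s → T'.X none (some b) (some c) (some d) = T.X s b c d) ∧
    ∀ b d, b ≠ s → d ≠ s → b ≠ d → T'.X none (some b) (some s) (some d) = H53P.btw π (ρ b) (ρ d) := by
  obtain ⟨w, hw⟩ : ∃ w : V, s ≠ w := by
    by_contra hcon
    push Not at hcon
    have : Fintype.card V ≤ 1 := Fintype.card_le_one_iff.2 fun a b => by rw [← hcon a, ← hcon b]
    omega
  obtain ⟨ρ, hρ, hmin⟩ := exists_rotAt T hw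
  have hπ1 : ∀ d, d ≠ s → ρ w - 1 < ρ d := by
    intro d hd
    by_cases e : d = w
    · rw [e]
      linarith
    · linarith [hmin d hd e]
  obtain ⟨T', t1, t2, -, t4⟩ := twin_spec T hρ (π := ρ w - 1) fun d hd => (hπ1 d hd).ne'
  exact ⟨ρ, _, T', hρ, hπ1, t1, t2, t4⟩

/-- petals at every vertex -/
theorem exists_pet (T : Table V) (hV : 3 ≤ Fintype.card V) (s : V) : ∃ (ρ : V → ℝ) (H : Finset (Sym2 V))
    (L : List (List V)), Pet T s ρ H L ∧ Plane (crossT T) H ∧ H ⊆ LW univ ∧
      (∀ u v, u ≠ s → v ≠ s → (GH s H).Reachable u v) ∧ L.flatten.Nodup := by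
  classical
  obtain ⟨ρ, π, T', hρ, hπ, t1, t2, t4⟩ := exists_twin T hV s
  obtain ⟨G, ⟨hG, hG0⟩, hst, L', hL⟩ := H47T.theoremT (V := Option V) (by rw [Fintype.card_option]; omega)
    (crossT_symm T') (hd_table T') (s := some s) (t := none) (by simp)
  obtain ⟨F, K, hP, hF, hF', hn, -⟩ := pet_of T hρ hπ t1 t2 t4 hG hG0 hL
  obtain ⟨H, h1, h2, h3, h4⟩ := exists_max T hF hF'
  exact ⟨ρ, H, K, hP.mono h1 h3, h3, h2, conn_max T h3 h2 h4 s, hn⟩

/-- a long path between two neighbours of `s` in a plane set -/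
theorem long_table (T : Table V) (hV : 3 ≤ Fintype.card V) (s : V) :
    ∃ H : Finset (Sym2 V), Plane (crossT T) H ∧ (∀ v, s(v, v) ∉ H) ∧
      ∃ (u v : V) (p : (GH s H).Walk u v), p.IsPath ∧ u ≠ v ∧ u ≠ s ∧ s(s, u) ∈ H ∧ s(s, v) ∈ H ∧
        Fintype.card V - 1 ≤ p.support.length ^ 2 := by
  obtain ⟨ρ, H, L, h1, h2, h3, h4, -⟩ := exists_pet T hV s
  exact ⟨H, h2, fun v hv => (mem_LW.1 (h3 hv)).2.2 rfl, h1.long hV h4⟩

end H71Y
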