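import Pool.Agent.Lib.H71Y.F
import Pool.Agent.Lib.H97W.FinQ

/-!
# H71Y, file E: nested petals and long plane cycles through every vertex of a simple drawing
-/

set_option autoImplicit false

namespace H71Y

open Finset H53P H98P SimpleDraw H97W

theorem support_ne {V : Type} {s : V} {H : Finset (Sym2 V)} {u v : V} (p : (GH s H).Walk u v) (hu : u ≠ s) :
    s ∉ p.support := by
  induction p with
  | nil => simpa using hu.symm
  | cons h p ih =>
    rw [SimpleGraph.Walk.support_cons, List.mem_cons, not_or]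
    exact ⟨hu.symm, ih h.1.2.2⟩

/-- a cycle through `s` from a path between two neighbours of `s` -/
theorem cycle_of {V : Type} {G : SimpleGraph V} {s : V} {H : Finset (Sym2 V)} (hle : GH s H ≤ G) {u v : V}
    (p : (GH s H).Walk u v) (hp : p.IsPath) (huv : u ≠ v) (hu : u ≠ s) (hsu : G.Adj s u) (hvs : G.Adj v s) :
    ∃ c : G.Walk s s, c.IsCycle ∧ c.length - 1 = p.support.length := by
  have hs := support_ne p hu
  have hsup := SimpleGraph.Walk.support_mapLe_eq_support hle p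
  have hp' : (p.mapLe hle).IsPath := (SimpleGraph.Walk.isPath_mapLe hle).2 hp
  refine ⟨SimpleGraph.Walk.cons hsu ((p.mapLe hle).concat hvs), ?_, ?_⟩
  · rw [SimpleGraph.Walk.cons_isCycle_iff]
    refine ⟨hp'.concat (by rw [hsup]; exact hs) hvs, ?_⟩
    rw [SimpleGraph.Walk.edges_concat, List.concat_eq_append, List.mem_append, List.mem_singleton, not_or]
    refine ⟨fun h => ?_, fun h => ?_⟩
    · have := SimpleGraph.Walk.fst_mem_support_of_mem_edges _ h
      rw [hsup] at this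
      exact hs this
    · rw [Sym2.eq_iff] at h
      rcases h with ⟨e1, e2⟩ | ⟨e1, e2⟩
      · exact hu e2
      · exact huv e2
  · rw [SimpleGraph.Walk.length_cons, SimpleGraph.Walk.length_concat, Nat.add_sub_cancel, ← hsup,
      SimpleGraph.Walk.length_support]

/-- For every vertex `s` of a simple drawing of `K_n` there is a plane subdrawing with the structure `Layers` at `s`
and a cycle through `s` with at least `√(n - 1) + 1` vertices. -/
theorem layers_drawing {n : ℕ} (hn : 3 ≤ n) (D : SimpleDrawing n) (s : Fin n) :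
    ∃ (G : SimpleGraph (Fin n)) (L : List (List (Fin n))), D.Plane G ∧
      (L.flatten.Nodup ∧ (∀ v, v ∈ L.flatten ↔ v ≠ s) ∧ (∀ l ∈ L, l ≠ []) ∧
      (∀ l ∈ L, (s :: (l ++ [s])).IsChain G.Adj) ∧ (∀ l ∈ L, ∀ l' ∈ L, l.length ≤ 1 → l'.length ≤ 1 → l = l') ∧
      (∀ (i j : ℕ) (_ : i < L.length) (_ : j < L.length), i + 1 < j → ∀ x ∈ L[i], ∀ y ∈ L[j], ¬ G.Adj x y) ∧
      ∀ (i : ℕ) (_ : i + 1 < L.length), ∃ x ∈ L[i], ∃ y ∈ L[i + 1], G.Adj x y) ∧
      ∃ c : G.Walk s s, c.IsCycle ∧ n - 1 ≤ (c.length - 1) ^ 2 := by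
  have hV : 3 ≤ Fintype.card (Fin n) := by rw [Fintype.card_fin]; exact hn
  obtain ⟨ρ, H, K, hK, h1, h2, h3, h4⟩ := exists_pet (table D) hV s
  have hl : ∀ v, s(v, v) ∉ H := fun v hv => (H98Z.mem_LW.1 (h2 hv)).2.2 rfl
  obtain ⟨L, hL, -⟩ := hK.layers h4 h3
  obtain ⟨u, v, p, hp, huv, hu, hsu, hsv, hlen⟩ := hK.long hV h3
  have hle : GH s H ≤ gr H := fun a b hab => adj_of hl hab.2
  have hadj : ∀ a b, (gr H).Adj a b → s(a, b) ∈ H := by
    intro a b hab
    rw [SimpleGraph.fromEdgeSet_adj] at hab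
    exact mem_coe.1 hab.1
  obtain ⟨c, hc, hcl⟩ := cycle_of hle p hp huv hu (adj_of hl hsu) (adj_of hl hsv).symm
  refine ⟨gr H, L, plane_of D h1, ⟨hL.nd, hL.mem, fun l hl1 e => hL.ne (e ▸ hl1), ?_, hL.single, ?_, ?_⟩, c, hc, ?_⟩
  · exact fun l hl1 => (hL.ch l hl1).imp fun a b hab => adj_of hl hab
  · exact fun i j hi hj hij x hx y hy hxy => hL.far i j hi hj hij x hx y hy (hadj _ _ hxy)
  · intro i hi
    obtain ⟨x, hx, y, hy, hxy⟩ := hL.near i hi
    exact ⟨x, hx, y, hy, adj_of hl hxy⟩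
  · rw [hcl]
    rw [Fintype.card_fin] at hlen
    exact hlen

/-- Through every vertex of a simple drawing of `K_n` there is a plane cycle with at least `√(n - 1) + 1` vertices. -/
theorem long_drawing {n : ℕ} (hn : 3 ≤ n) (D : SimpleDrawing n) (s : Fin n) :
    ∃ G : SimpleGraph (Fin n), D.Plane G ∧ ∃ c : G.Walk s s, c.IsCycle ∧ n - 1 ≤ (c.length - 1) ^ 2 := by
  obtain ⟨G, L, h1, -, h2⟩ := layers_drawing hn D s
  exact ⟨G, h1, h2⟩

end H71Y
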