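import Pool.Agent.Lib.H71Y.D

/-!
# H71Y, file F: the petals in their order

`Layers s H L`: the vertices except `s` are partitioned into the paths `L[0], L[1], …` of `H`; `s` is joined to the
first and to the last vertex of each path, at most one path has only one vertex, and edges of `H` which avoid `s` join
vertices of the same or of consecutive paths; consecutive paths are joined by an edge of `H`.
-/

set_option autoImplicit false
set_option linter.unusedSectionVars false

namespace H71Y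

open H53P H98V Finset

variable {V : Type}

/-- the petals in their order -/
structure Layers (s : V) (H : Finset (Sym2 V)) (L : List (List V)) : Prop where
  ne : [] ∉ L
  nd : L.flatten.Nodup
  mem : ∀ v, v ∈ L.flatten ↔ v ≠ s
  ch : ∀ l ∈ L, (s :: (l ++ [s])).IsChain fun u v => s(u, v) ∈ H
  single : ∀ l ∈ L, ∀ l' ∈ L, l.length ≤ 1 → l'.length ≤ 1 → l = l'
  far : ∀ (i j : ℕ) (hi : i < L.length) (hj : j < L.length), i + 1 < j → ∀ x ∈ L[i], ∀ y ∈ L[j], s(x, y) ∉ H
  near : ∀ (i : ℕ) (hi : i + 1 < L.length), ∃ x ∈ L[i], ∃ y ∈ L[i + 1], s(x, y) ∈ H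

theorem chain_close {s : V} {R : V → V → Prop} (hs : ∀ a b, R a b → R b a) : ∀ (l : List V) (a : V),
    (a :: l).IsChain R → R s (la a l) → (a :: (l ++ [s])).IsChain R := by
  intro l
  induction l with
  | nil =>
    intro a _ h
    simp only [List.nil_append, List.isChain_cons_cons, List.isChain_singleton, and_true]
    exact hs _ _ h
  | cons b l ih =>
    intro a h1 h2
    rw [List.isChain_cons_cons] at h1
    rw [List.cons_append, List.isChain_cons_cons]
    exact ⟨h1.1, ih b h1.2 h2⟩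

open Classical in
theorem Pet.layers {T : Table V} {s : V} {ρ : V → ℝ} {H : Finset (Sym2 V)} {K : List (List V)}
    (h : Pet T s ρ H K) (hn : K.flatten.Nodup) (hcon : ∀ u v, u ≠ s → v ≠ s → (GH s H).Reachable u v) :
    ∃ L, Layers s H L ∧ ∀ l, l ∈ L ↔ l ∈ K := by
  obtain ⟨f, hf⟩ : ∃ f : List V → ℝ, ∀ a l, f (a :: l) = ρ (la a l) := by
    refine ⟨fun l => match l with
      | [] => 0
      | a :: l => ρ (la a l), fun a l => rfl⟩
  obtain ⟨L, hperm, hsort⟩ : ∃ L : List (List V), L.Perm K ∧ L.Pairwise fun l l' => f l ≤ f l' := by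
    refine ⟨K.insertionSort fun l l' => f l ≤ f l', List.perm_insertionSort _ K, ?_⟩
    have : Std.Total (fun l l' : List V => f l ≤ f l') := ⟨fun a b => le_total _ _⟩
    have : IsTrans (List V) (fun l l' : List V => f l ≤ f l') := ⟨fun a b c => le_trans⟩
    exact List.pairwise_insertionSort _ K
  have hmem : ∀ l, l ∈ L ↔ l ∈ K := fun l => hperm.mem_iff
  have hne : [] ∉ L := fun h1 => h.ne ((hmem _).1 h1)
  have hnd : L.flatten.Nodup := (hperm.flatten.nodup_iff).2 hn
  have hcons : ∀ l ∈ L, ∃ a l', l = a :: l' := by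
    intro l hl
    cases l with
    | nil => exact absurd hl hne
    | cons a l' => exact ⟨a, l', rfl⟩
  have hdj : L.Pairwise List.Disjoint := (List.nodup_flatten.1 hnd).2
  have hidx : ∀ (i j : ℕ) (hi : i < L.length) (hj : j < L.length), i < j → f L[i] < f L[j] := by
    intro i j hi hj hij
    refine lt_of_le_of_ne (List.pairwise_iff_getElem.1 hsort i j hi hj hij) fun e => ?_
    have hd := List.pairwise_iff_getElem.1 hdj i j hi hj hij
    obtain ⟨a, l, hal⟩ := hcons _ (List.getElem_mem hi)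
    obtain ⟨b, k, hbk⟩ := hcons _ (List.getElem_mem hj)
    rw [hal, hbk] at hd e
    rw [hf, hf] at e
    have m1 : a :: l ∈ K := (hmem _).1 (hal ▸ List.getElem_mem hi)
    have m2 : b :: k ∈ K := (hmem _).1 (hbk ▸ List.getElem_mem hj)
    have e2 := h.rot.1 _ _ ((h.mem _).1 ⟨_, m1, la_mem l a⟩) ((h.mem _).1 ⟨_, m2, la_mem k b⟩) e
    exact hd (la_mem l a) (e2 ▸ la_mem k b)
  have hfar : ∀ (i j : ℕ) (hi : i < L.length) (hj : j < L.length), i + 1 < j → ∀ x ∈ L[i], ∀ y ∈ L[j],
      s(x, y) ∉ H := by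
    intro i j hi hj hij x hx y hy hxy
    have hm : i + 1 < L.length := by omega
    obtain ⟨a1, l1, e1⟩ := hcons _ (List.getElem_mem hi)
    obtain ⟨a2, l2, e2⟩ := hcons _ (List.getElem_mem hj)
    obtain ⟨a0, l0, e0⟩ := hcons _ (List.getElem_mem hm)
    have f1 := hidx i (i + 1) hi hm (by omega)
    have f2 := hidx (i + 1) j hm hj hij
    have m1 : a1 :: l1 ∈ K := (hmem _).1 (e1 ▸ List.getElem_mem hi)
    have m2 : a2 :: l2 ∈ K := (hmem _).1 (e2 ▸ List.getElem_mem hj)
    have m0 : a0 :: l0 ∈ K := (hmem _).1 (e0 ▸ List.getElem_mem hm)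
    rw [e1, e0] at f1
    rw [e0, e2] at f2
    rw [e1] at hx
    rw [e2] at hy
    have n1 : a0 :: l0 ≠ a1 :: l1 := fun e => by
      rw [e] at f1
      exact lt_irrefl _ f1
    have n2 : a0 :: l0 ≠ a2 :: l2 := fun e => by
      rw [e] at f2
      exact lt_irrefl _ f2
    rw [hf, hf] at f1 f2
    exact absurd ((h.sep m0 m1 m2 n1 n2 hx hy (Or.inr hxy)).2 f2) (not_lt.2 f1.le)
  have hmemf : ∀ v, v ∈ L.flatten ↔ v ≠ s := by
    intro v
    rw [List.mem_flatten, ← h.mem v]
    exact ⟨fun ⟨l, h1, h2⟩ => ⟨l, (hmem l).1 h1, h2⟩, fun ⟨l, h1, h2⟩ => ⟨l, (hmem l).2 h1, h2⟩⟩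
  have hpos : ∀ v, v ≠ s → ∃ (i : ℕ) (hi : i < L.length), v ∈ L[i] := by
    intro v hv
    obtain ⟨l, h1, h2⟩ := List.mem_flatten.1 ((hmemf v).2 hv)
    obtain ⟨i, hi, rfl⟩ := List.mem_iff_getElem.1 h1
    exact ⟨i, hi, h2⟩
  have huniq : ∀ (v : V) (i j : ℕ) (hi : i < L.length) (hj : j < L.length), v ∈ L[i] → v ∈ L[j] → i = j := by
    intro v i j hi hj h1 h2
    rcases lt_trichotomy i j with h3 | h3 | h3
    · exact absurd h2 (List.pairwise_iff_getElem.1 hdj i j hi hj h3 h1)
    · exact h3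
    · exact absurd h1 (List.pairwise_iff_getElem.1 hdj j i hj hi h3 h2)
  refine ⟨L, ⟨hne, hnd, hmemf, ?_, ?_, hfar, ?_⟩, hmem⟩
  · intro l hl
    obtain ⟨a, l, rfl⟩ := hcons l hl
    have m := (hmem _).1 hl
    rw [List.cons_append, List.isChain_cons_cons]
    exact ⟨h.hd _ _ m, chain_close (fun a b hab => by rw [Sym2.eq_swap]; exact hab) l a (h.ch _ m) (h.lt _ _ m)⟩
  · intro l hl l' hl' h1 h2
    obtain ⟨a, l, rfl⟩ := hcons l hl
    obtain ⟨b, k, rfl⟩ := hcons l' hl'
    rw [List.length_cons] at h1 h2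
    have e1 : l = [] := List.length_eq_zero_iff.1 (by omega)
    have e2 : k = [] := List.length_eq_zero_iff.1 (by omega)
    subst e1
    subst e2
    have m1 := (hmem _).1 hl
    have m2 := (hmem _).1 hl'
    have o1 := h.ord _ _ _ _ m1 m2
    have o2 := h.ord _ _ _ _ m2 m1
    have := h.rot.1 _ _ ((h.mem a).1 ⟨_, m1, by simp⟩) ((h.mem b).1 ⟨_, m2, by simp⟩) (le_antisymm o2 o1)
    rw [this]
  · intro i hi
    by_contra hno
    push Not at hno
    obtain ⟨a1, l1, e1⟩ := hcons _ (List.getElem_mem (show i < L.length by omega))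
    obtain ⟨a2, l2, e2⟩ := hcons _ (List.getElem_mem hi)
    have m1 : a1 ∈ L[i] := e1 ▸ by simp
    have m2 : a2 ∈ L[i + 1] := e2 ▸ by simp
    have n1 : a1 ≠ s := (hmemf a1).1 (List.mem_flatten.2 ⟨_, List.getElem_mem _, m1⟩)
    have n2 : a2 ≠ s := (hmemf a2).1 (List.mem_flatten.2 ⟨_, List.getElem_mem _, m2⟩)
    have key : ∀ {u v : V} (p : (GH s H).Walk u v), (∃ (j : ℕ) (hj : j < L.length), j ≤ i ∧ u ∈ L[j]) →
        ∃ (j : ℕ) (hj : j < L.length), j ≤ i ∧ v ∈ L[j] := by
      intro u v p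
      induction p with
      | nil => exact fun h1 => h1
      | @cons u w v huw p ih =>
        rintro ⟨j, hj, hji, hu⟩
        obtain ⟨k, hk, hw⟩ := hpos w huw.1.2.2
        refine ih ⟨k, hk, ?_, hw⟩
        by_contra hki
        have hjk : j < k := by omega
        by_cases e : j + 1 = k
        · have e3 : j = i := by omega
          subst e3
          subst e
          exact hno u hu w hw huw.2
        · exact hfar j k hj hk (by omega) u hu w hw huw.2
    obtain ⟨q⟩ := hcon a1 a2 n1 n2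
    obtain ⟨j, hj, hji, hv⟩ := key q ⟨i, by omega, le_rfl, m1⟩
    have := huniq a2 j (i + 1) hj hi hv m2
    omega

end H71Y
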