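import Pool.Agent.Lib.H71Y.E

/-!
# H71Y, file G: the closed walk along all petals
-/

set_option autoImplicit false

namespace H71Y

open SimpleDraw

/-- the walk of a chain -/
theorem walk_chain {V : Type} {G : SimpleGraph V} : ∀ (l : List V) (a b : V), (a :: (l ++ [b])).IsChain G.Adj →
    ∃ w : G.Walk a b, w.support = a :: (l ++ [b]) := by
  intro l
  induction l with
  | nil =>
    intro a b h
    simp only [List.nil_append, List.isChain_cons_cons, List.isChain_singleton, and_true] at h
    exact ⟨SimpleGraph.Walk.cons h SimpleGraph.Walk.nil, by simp⟩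
  | cons c l ih =>
    intro a b h
    rw [List.cons_append, List.isChain_cons_cons] at h
    obtain ⟨w, hw⟩ := ih c b h.2
    exact ⟨SimpleGraph.Walk.cons h.1 w, by rw [SimpleGraph.Walk.support_cons, hw]; rfl⟩

/-- the closed walk along all petals -/
theorem walk_petals {V : Type} {G : SimpleGraph V} {s : V} : ∀ L : List (List V),
    (∀ l ∈ L, (s :: (l ++ [s])).IsChain G.Adj) →
    ∃ w : G.Walk s s, w.support = s :: (L.map fun l => l ++ [s]).flatten := by
  intro L
  induction L with
  | nil => exact fun _ => ⟨SimpleGraph.Walk.nil, by simp⟩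
  | cons l L ih =>
    intro h
    obtain ⟨w1, h1⟩ := walk_chain l s s (h l (by simp))
    obtain ⟨w2, h2⟩ := ih fun k hk => h k (List.mem_cons_of_mem _ hk)
    refine ⟨w1.append w2, ?_⟩
    rw [SimpleGraph.Walk.support_append, h1, h2]
    simp

theorem count_petals {V : Type} [DecidableEq V] {s v : V} (hv : v ≠ s) : ∀ L : List (List V),
    ((L.map fun l => l ++ [s]).flatten).count v = L.flatten.count v := by
  intro L
  induction L with
  | nil => simp
  | cons l L ih =>
    rw [List.map_cons, List.flatten_cons, List.flatten_cons, List.count_append, List.count_append, ih,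
      List.count_append, List.count_singleton]
    have : (s == v) = false := by
      rw [beq_eq_false_iff_ne]
      exact hv.symm
    rw [this]
    simp

/-- Rafla's conjecture with one exceptional vertex: for every vertex `s` of a simple drawing of `K_n` there are a plane
subdrawing, a closed walk in it which visits every vertex except `s` exactly once, and a cycle through `s` in it with at
least `√(n - 1) + 1` vertices. -/
theorem walk_drawing {n : ℕ} (hn : 3 ≤ n) (D : SimpleDrawing n) (s : Fin n) :
    ∃ G : SimpleGraph (Fin n), D.Plane G ∧ (∃ w : G.Walk s s, ∀ v, v ≠ s → w.support.count v = 1) ∧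
      ∃ c : G.Walk s s, c.IsCycle ∧ n - 1 ≤ (c.length - 1) ^ 2 := by
  obtain ⟨G, L, h1, ⟨h2, h3, -, h4, -⟩, h5⟩ := layers_drawing hn D s
  refine ⟨G, h1, ?_, h5⟩
  obtain ⟨w, hw⟩ := walk_petals L h4
  refine ⟨w, fun v hv => ?_⟩
  rw [hw, List.count_cons, count_petals hv]
  have : (s == v) = false := by
    rw [beq_eq_false_iff_ne]
    exact hv.symm
  rw [this]
  simp only [Bool.false_eq_true, if_false, add_zero]
  exact List.count_eq_one_of_mem h2 ((h3 v).2 hv)

end H71Y
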