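import Pool.Agent.Lib.H71Y.F
import Pool.Agent.Lib.H71Y.G
import Pool.Agent.Lib.H47X.H

/-!
# H71Y, file H: exactly `2n - 3` edges

Theorem T with exactly `2|V| - 3` edges (`H47X.theoremTX`) for the table with the twin of `s` gives petals in a plane set
with at least `2|V| - 3` edges. The petals together with one edge between any two consecutive petals have at most
`2|V| - 3` edges, so the plane set can be trimmed.
-/

set_option autoImplicit false
set_option linter.unusedSectionVars false

namespace H71Y

open Finset H53P H98P H98Z H98M H66N H98V H98W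

variable {V : Type} [DecidableEq V]

/-- the edges of the path `a, l` -/
def pe (a : V) : List V → Finset (Sym2 V)
  | [] => ∅
  | b :: l => insert s(a, b) (pe b l)

/-- the edges of a petal -/
def pE (s : V) : List V → Finset (Sym2 V)
  | [] => ∅
  | a :: l => insert s(s, a) (insert s(s, la a l) (pe a l))

/-- the edges of all petals -/
def PE (s : V) : List (List V) → Finset (Sym2 V)
  | [] => ∅
  | l :: L => pE s l ∪ PE s L

theorem pe_card : ∀ (l : List V) (a : V), (pe a l).card ≤ l.length := by
  intro l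
  induction l with
  | nil => intro a; simp [pe]
  | cons b l ih =>
    intro a
    have h1 := card_insert_le s(a, b) (pe b l)
    have h2 := ih b
    show (insert s(a, b) (pe b l)).card ≤ (b :: l).length
    rw [List.length_cons]
    omega

theorem pE_card (s : V) {l : List V} (hl : l ≠ []) : (pE s l).card + 1 ≤ 2 * l.length := by
  cases l with
  | nil => exact absurd rfl hl
  | cons a l =>
    cases l with
    | nil =>
      show (insert s(s, a) (insert s(s, a) (∅ : Finset (Sym2 V)))).card + 1 ≤ 2 * 1
      rw [insert_idem]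
      simp
    | cons b l =>
      have h1 := pe_card (b :: l) a
      have h2 := card_insert_le s(s, a) (insert s(s, la a (b :: l)) (pe a (b :: l)))
      have h3 := card_insert_le s(s, la a (b :: l)) (pe a (b :: l))
      show (insert s(s, a) (insert s(s, la a (b :: l)) (pe a (b :: l)))).card + 1 ≤ 2 * (a :: b :: l).length
      rw [List.length_cons] at h1 ⊢
      rw [List.length_cons]
      omega

theorem PE_card (s : V) : ∀ L : List (List V), [] ∉ L → (PE s L).card + L.length ≤ 2 * L.flatten.length := by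
  intro L
  induction L with
  | nil => intro _; simp [PE]
  | cons l L ih =>
    intro h
    rw [List.mem_cons, not_or] at h
    have h1 := ih h.2
    have h2 := pE_card s (Ne.symm h.1)
    have h3 := card_union_le (pE s l) (PE s L)
    show (pE s l ∪ PE s L).card + (l :: L).length ≤ 2 * (l :: L).flatten.length
    rw [List.length_cons, List.flatten_cons, List.length_append]
    omega

theorem pe_sub {H : Finset (Sym2 V)} : ∀ (l : List V) (a : V), (a :: l).IsChain (fun u v => s(u, v) ∈ H) →
    pe a l ⊆ H := by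
  intro l
  induction l with
  | nil => intro a _; exact empty_subset _
  | cons b l ih =>
    intro a h
    rw [List.isChain_cons_cons] at h
    exact insert_subset h.1 (ih b h.2)

theorem pe_chain {G : Finset (Sym2 V)} : ∀ (l : List V) (a : V), pe a l ⊆ G →
    (a :: l).IsChain (fun u v => s(u, v) ∈ G) := by
  intro l
  induction l with
  | nil => intro a _; exact List.isChain_singleton _
  | cons b l ih =>
    intro a h
    rw [List.isChain_cons_cons]
    exact ⟨h (mem_insert_self _ _), ih b ((subset_insert _ _).trans h)⟩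

theorem pE_sub_PE (s : V) {l : List V} : ∀ L : List (List V), l ∈ L → pE s l ⊆ PE s L := by
  intro L
  induction L with
  | nil => intro h; exact absurd h (by simp)
  | cons k L ih =>
    intro h
    rcases List.mem_cons.1 h with rfl | h
    · exact subset_union_left
    · exact (ih h).trans subset_union_right

theorem PE_sub {s : V} {H : Finset (Sym2 V)} : ∀ L : List (List V), (∀ l ∈ L, pE s l ⊆ H) → PE s L ⊆ H := by
  intro L
  induction L with
  | nil => intro _; exact empty_subset _
  | cons k L ih =>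
    intro h
    exact union_subset (h k (by simp)) (ih fun l hl => h l (List.mem_cons_of_mem _ hl))

theorem chain_reach {s : V} {G : Finset (Sym2 V)} (l : List V) (a : V)
    (hc : (a :: l).IsChain (fun u v => s(u, v) ∈ G)) (hn : (a :: l).Nodup) (hs : s ∉ a :: l) :
    ∀ x ∈ a :: l, (GH s G).Reachable a x := by
  intro x hx
  obtain ⟨p, hp⟩ := walk_of_chain s G l a hc hn hs
  rw [← hp] at hx
  exact ⟨p.takeUntil x hx⟩

variable [Fintype V]

/-- trimming -/
theorem trim {T : Table V} {s : V} {ρ : V → ℝ} {H : Finset (Sym2 V)} {K : List (List V)} (hP : Pet T s ρ H K)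
    (hH : Plane (crossT T) H) (hH' : H ⊆ LW univ) (hn : K.flatten.Nodup)
    (hcon : ∀ u v, u ≠ s → v ≠ s → (GH s H).Reachable u v) (hV : 3 ≤ Fintype.card V)
    (hc : 2 * Fintype.card V ≤ H.card + 3) :
    ∃ G ⊆ H, G.card + 3 = 2 * Fintype.card V ∧ Pet T s ρ G K ∧
      ∀ u v, u ≠ s → v ≠ s → (GH s G).Reachable u v := by
  classical
  obtain ⟨L, hL, hLK⟩ := hP.layers hn hcon
  have hlen : L.flatten.length + 1 = Fintype.card V := by
    have h1 : L.flatten.toFinset = univ.erase s := by
      ext v
      rw [List.mem_toFinset, hL.mem, mem_erase]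
      simp
    rw [← List.toFinset_card_of_nodup hL.nd, h1, card_erase_of_mem (mem_univ s), card_univ]
    omega
  have hL1 : 1 ≤ L.length := by
    rcases Nat.eq_zero_or_pos L.length with h | h
    · rw [List.length_eq_zero_iff.1 h] at hlen
      simp at hlen
      omega
    · exact h
  have hcons : ∀ l ∈ L, ∃ a l', l = a :: l' := by
    intro l hl
    cases l with
    | nil => exact absurd hl hL.ne
    | cons a l' => exact ⟨a, l', rfl⟩
  have hnear : ∀ i : ℕ, ∃ e : Sym2 V, ∀ hi : i + 1 < L.length, ∃ x ∈ L[i], ∃ y ∈ L[i + 1], e = s(x, y) ∧ e ∈ H := by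
    intro i
    by_cases hi : i + 1 < L.length
    · obtain ⟨x, hx, y, hy, hxy⟩ := hL.near i hi
      exact ⟨s(x, y), fun _ => ⟨x, hx, y, hy, rfl, hxy⟩⟩
    · exact ⟨s(s, s), fun h => absurd h hi⟩
  choose c hcn using hnear
  obtain ⟨C, hC⟩ : ∃ C : Finset (Sym2 V), C = (range (L.length - 1)).image c := ⟨_, rfl⟩
  have hCc : C.card ≤ L.length - 1 := by
    rw [hC]
    exact card_image_le.trans (by rw [card_range])
  have hCH : C ⊆ H := by
    intro e he
    rw [hC] at he
    obtain ⟨i, hi, rfl⟩ := mem_image.1 he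
    obtain ⟨x, hx, y, hy, h1, h2⟩ := hcn i (by have := mem_range.1 hi; omega)
    exact h2
  have hPH : PE s L ⊆ H := by
    refine PE_sub L fun l hl => ?_
    obtain ⟨a, l, rfl⟩ := hcons l hl
    have m := (hLK _).1 hl
    exact insert_subset (hP.hd _ _ m) (insert_subset (hP.lt _ _ m) (pe_sub l a (hP.ch _ m)))
  have h0 : (PE s L ∪ C).card ≤ 2 * Fintype.card V - 3 := by
    have h1 := PE_card s L hL.ne
    have h2 := card_union_le (PE s L) C
    omega
  obtain ⟨G, hG1, hG2, hG3⟩ := exists_subsuperset_card_eq (union_subset hPH hCH) h0 (by omega)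
  have hPG : PE s L ⊆ G := subset_union_left.trans hG1
  have hCG : C ⊆ G := subset_union_right.trans hG1
  have hGP : Plane (crossT T) G := fun e he f hf => hH e (hG2 he) f (hG2 hf)
  have hpG : ∀ l ∈ K, pE s l ⊆ G := fun l hl => (pE_sub_PE s L ((hLK l).2 hl)).trans hPG
  have hPet : Pet T s ρ G K := by
    refine ⟨hP.rot, ?_, hP.mem, hP.nd, hP.dj, hP.ne, ?_, ?_, ?_, hP.ord⟩
    · intro a b c d h5 h6
      exact hP.pl _ _ _ _ (hG2 h5) (hG2 h6)
    · intro l hl
      obtain ⟨a, l, rfl⟩ := hcons l ((hLK l).2 hl)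
      exact pe_chain l a (((subset_insert _ _).trans (subset_insert _ _)).trans (hpG _ hl))
    · intro a l hl
      exact hpG _ hl (mem_insert_self _ _)
    · intro a l hl
      exact hpG _ hl (mem_insert_of_mem (mem_insert_self _ _))
  refine ⟨G, hG2, by omega, hPet, ?_⟩
  have hs : ∀ l ∈ L, s ∉ l := fun l hl h => (hL.mem s).1 (List.mem_flatten.2 ⟨l, hl, h⟩) rfl
  -- in one petal
  have r1 : ∀ l ∈ L, ∀ x ∈ l, ∀ y ∈ l, (GH s G).Reachable x y := by
    intro l hl x hx y hy
    obtain ⟨a, l, rfl⟩ := hcons l hl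
    have m := (hLK _).1 hl
    have h1 := chain_reach l a (hPet.ch _ m) (hPet.nd _ m) (hs _ hl)
    exact (h1 x hx).symm.trans (h1 y hy)
  -- from the first petal
  have r2 : ∀ (i : ℕ) (hi : i < L.length), ∀ x ∈ L[0], ∀ y ∈ L[i], (GH s G).Reachable x y := by
    intro i
    induction i with
    | zero => exact fun hi x hx y hy => r1 _ (List.getElem_mem _) x hx y hy
    | succ i ih =>
      intro hi x hx y hy
      obtain ⟨u, hu, w, hw, h1, h2⟩ := hcn i hi
      have h3 : s(u, w) ∈ G := by
        rw [← h1]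
        exact hCG (by rw [hC]; exact mem_image_of_mem _ (mem_range.2 (by omega)))
      have h4 : u ≠ w := (mem_LW.1 (hH' (hG2 h3))).2.2
      have h5 : (GH s G).Adj u w :=
        ⟨⟨h4, fun e => hs _ (List.getElem_mem _) (e ▸ hu), fun e => hs _ (List.getElem_mem _) (e ▸ hw)⟩, h3⟩
      exact ((ih (by omega) x hx u hu).trans h5.reachable).trans (r1 _ (List.getElem_mem _) w hw y hy)
  obtain ⟨a0, l0, e0⟩ := hcons _ (List.getElem_mem (show 0 < L.length by omega))
  have ha0 : a0 ∈ L[0] := e0 ▸ by simp
  have r3 : ∀ u, u ≠ s → (GH s G).Reachable a0 u := by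
    intro u hu
    obtain ⟨l, h1, h2⟩ := List.mem_flatten.1 ((hL.mem u).2 hu)
    obtain ⟨i, hi, rfl⟩ := List.mem_iff_getElem.1 h1
    exact r2 i hi a0 ha0 u h2
  exact fun u v hu hv => (r3 u hu).symm.trans (r3 v hv)

/-- petals at every vertex in a plane set with exactly `2|V| - 3` edges -/
theorem exists_petX (T : Table V) (hV : 3 ≤ Fintype.card V) (s : V) : ∃ (ρ : V → ℝ) (G : Finset (Sym2 V))
    (L : List (List V)), Pet T s ρ G L ∧ Plane (crossT T) G ∧ G ⊆ LW univ ∧
      (∀ u v, u ≠ s → v ≠ s → (GH s G).Reachable u v) ∧ L.flatten.Nodup ∧ G.card + 3 = 2 * Fintype.card V := by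
  classical
  obtain ⟨ρ, π, T', hρ, hπ, t1, t2, t4⟩ := exists_twin T hV s
  obtain ⟨G0, ⟨hG, hG0⟩, hcard, hst, L', hL⟩ := H47X.theoremTX (V := Option V)
    (by rw [Fintype.card_option]; omega) (crossT_symm T') (hd_table T') (s := some s) (t := none) (by simp)
  rw [Fintype.card_option] at hcard
  obtain ⟨F, K, hP, hF, hF', hn, hFc⟩ := pet_of T hρ hπ t1 t2 t4 hG hG0 hL
  obtain ⟨H, h1, h2, h3, h4⟩ := exists_max T hF hF'
  have h5 := card_le_card h1
  obtain ⟨G, g1, g2, g3, g4⟩ := trim (hP.mono h1 h3) h3 h2 hn (conn_max T h3 h2 h4 s) hV (by omega)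
  exact ⟨ρ, G, K, g3, fun e he f hf => h3 e (g1 he) f (g1 hf), g1.trans h2, g4, hn, g2⟩

end H71Y
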