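import Pool.Agent.Lib.H71Y.H

/-!
# H71Y, file I: the final form for simple drawings: exactly `2n - 3` edges
-/

set_option autoImplicit false

namespace H71Y

open Finset H53P H98P SimpleDraw H97W

/-- For every vertex `s` of a simple drawing of `K_n` there is a plane subdrawing with exactly `2n - 3` edges with the
structure `Layers` at `s` and with a cycle through `s` with at least `√(n - 1) + 1` vertices. -/
theorem layersX_drawing {n : ℕ} (hn : 3 ≤ n) (D : SimpleDrawing n) (s : Fin n) :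
    ∃ (G : SimpleGraph (Fin n)) (L : List (List (Fin n))), D.Plane G ∧ G.edgeSet.ncard = 2 * n - 3 ∧
      (L.flatten.Nodup ∧ (∀ v, v ∈ L.flatten ↔ v ≠ s) ∧ (∀ l ∈ L, l ≠ []) ∧
      (∀ l ∈ L, (s :: (l ++ [s])).IsChain G.Adj) ∧ (∀ l ∈ L, ∀ l' ∈ L, l.length ≤ 1 → l'.length ≤ 1 → l = l') ∧
      (∀ (i j : ℕ) (_ : i < L.length) (_ : j < L.length), i + 1 < j → ∀ x ∈ L[i], ∀ y ∈ L[j], ¬ G.Adj x y) ∧
      ∀ (i : ℕ) (_ : i + 1 < L.length), ∃ x ∈ L[i], ∃ y ∈ L[i + 1], G.Adj x y) ∧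
      ∃ c : G.Walk s s, c.IsCycle ∧ n - 1 ≤ (c.length - 1) ^ 2 := by
  have hV : 3 ≤ Fintype.card (Fin n) := by rw [Fintype.card_fin]; exact hn
  obtain ⟨ρ, H, K, hK, h1, h2, h3, h4, h5⟩ := exists_petX (table D) hV s
  have hl : ∀ v, s(v, v) ∉ H := fun v hv => (H98Z.mem_LW.1 (h2 hv)).2.2 rfl
  obtain ⟨L, hL, -⟩ := hK.layers h4 h3
  obtain ⟨u, v, p, hp, huv, hu, hsu, hsv, hlen⟩ := hK.long hV h3
  have hle : GH s H ≤ gr H := fun a b hab => adj_of hl hab.2
  have hadj : ∀ a b, (gr H).Adj a b → s(a, b) ∈ H := by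
    intro a b hab
    rw [SimpleGraph.fromEdgeSet_adj] at hab
    exact mem_coe.1 hab.1
  obtain ⟨c, hc, hcl⟩ := cycle_of hle p hp huv hu (adj_of hl hsu) (adj_of hl hsv).symm
  rw [Fintype.card_fin] at h5 hlen
  refine ⟨gr H, L, plane_of D h1, ?_, ⟨hL.nd, hL.mem, fun l hl1 e => hL.ne (e ▸ hl1), ?_, hL.single, ?_, ?_⟩,
    c, hc, ?_⟩
  · rw [ncard_edges hl]
    omega
  · exact fun l hl1 => (hL.ch l hl1).imp fun a b hab => adj_of hl hab
  · exact fun i j hi hj hij x hx y hy hxy => hL.far i j hi hj hij x hx y hy (hadj _ _ hxy)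
  · intro i hi
    obtain ⟨x, hx, y, hy, hxy⟩ := hL.near i hi
    exact ⟨x, hx, y, hy, adj_of hl hxy⟩
  · rw [hcl]
    exact hlen

theorem walk_of_layers {n : ℕ} {G : SimpleGraph (Fin n)} {s : Fin n} {L : List (List (Fin n))}
    (h1 : L.flatten.Nodup) (h2 : ∀ v, v ∈ L.flatten ↔ v ≠ s) (h3 : ∀ l ∈ L, (s :: (l ++ [s])).IsChain G.Adj) :
    ∃ w : G.Walk s s, ∀ v, v ≠ s → w.support.count v = 1 := by
  obtain ⟨w, hw⟩ := walk_petals L h3
  refine ⟨w, fun v hv => ?_⟩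
  rw [hw, List.count_cons, count_petals hv]
  have : (s == v) = false := by
    rw [beq_eq_false_iff_ne]
    exact hv.symm
  rw [this]
  simp only [Bool.false_eq_true, if_false, add_zero]
  exact List.count_eq_one_of_mem h1 ((h2 v).2 hv)

/-- Q1 with one exceptional vertex: for every vertex `s` of a simple drawing of `K_n` there is a plane subdrawing with
exactly `2n - 3` edges which contains a closed walk that visits every vertex except `s` exactly once, and a cycle through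
`s` with at least `√(n - 1) + 1` vertices. -/
theorem exact_drawing {n : ℕ} (hn : 3 ≤ n) (D : SimpleDrawing n) (s : Fin n) :
    ∃ G : SimpleGraph (Fin n), D.Plane G ∧ G.edgeSet.ncard = 2 * n - 3 ∧
      (∃ w : G.Walk s s, ∀ v, v ≠ s → w.support.count v = 1) ∧
      ∃ c : G.Walk s s, c.IsCycle ∧ n - 1 ≤ (c.length - 1) ^ 2 := by
  obtain ⟨G, L, h1, h2, ⟨h3, h4, -, h5, -⟩, h6⟩ := layersX_drawing hn D s
  exact ⟨G, h1, h2, walk_of_layers h3 h4 h5, h6⟩

end H71Y
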