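import Pool.Agent.Lib.H71Y.I

/-!
# H71Y, file J: the length of the closed walk
-/

set_option autoImplicit false

namespace H71Y

open SimpleDraw

theorem two_length {V : Type} : ∀ L : List (List V), [] ∉ L →
    2 * L.length ≤ L.flatten.length + (L.filter fun l => l.length ≤ 1).length := by
  intro L
  induction L with
  | nil => intro _; simp
  | cons l L ih =>
    intro h
    rw [List.mem_cons, not_or] at h
    have h1 := ih h.2
    have h2 : 1 ≤ l.length := List.length_pos_iff.2 (Ne.symm h.1)
    rw [List.length_cons, List.flatten_cons, List.length_append, List.filter_cons]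
    by_cases h3 : l.length ≤ 1
    · rw [if_pos (by simpa using h3), List.length_cons]
      omega
    · rw [if_neg (by simpa using h3)]
      omega

theorem nodup_of_flatten {V : Type} : ∀ L : List (List V), [] ∉ L → L.flatten.Nodup → L.Nodup := by
  intro L h1 h2
  rw [List.nodup_flatten] at h2
  refine h2.2.imp_of_mem fun {a b} ha hb hab e => ?_
  subst e
  cases a with
  | nil => exact h1 ha
  | cons x l => exact hab (a := x) (by simp) (by simp)

/-- The closed walk along the layers: it visits every vertex except `s` exactly once and has at most `3n/2 - 1`
steps. -/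
theorem walk_of_layersX {n : ℕ} {G : SimpleGraph (Fin n)} {s : Fin n} {L : List (List (Fin n))}
    (h1 : L.flatten.Nodup) (h2 : ∀ v, v ∈ L.flatten ↔ v ≠ s) (h3 : ∀ l ∈ L, (s :: (l ++ [s])).IsChain G.Adj)
    (h4 : ∀ l ∈ L, l ≠ []) (h5 : ∀ l ∈ L, ∀ l' ∈ L, l.length ≤ 1 → l'.length ≤ 1 → l = l') :
    ∃ w : G.Walk s s, (∀ v, v ≠ s → w.support.count v = 1) ∧ 2 * w.length + 2 ≤ 3 * n := by
  obtain ⟨w, hw⟩ := walk_petals L h3
  refine ⟨w, fun v hv => ?_, ?_⟩
  · rw [hw, List.count_cons, count_petals hv]
    have : (s == v) = false := by
      rw [beq_eq_false_iff_ne]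
      exact hv.symm
    rw [this]
    simp only [Bool.false_eq_true, if_false, add_zero]
    exact List.count_eq_one_of_mem h1 ((h2 v).2 hv)
  · have hne : [] ∉ L := fun h => h4 _ h rfl
    have hlen : ∀ K : List (List (Fin n)),
        ((K.map fun l => l ++ [s]).flatten).length = K.flatten.length + K.length := by
      intro K
      induction K with
      | nil => rfl
      | cons l K ih =>
        rw [List.map_cons, List.flatten_cons, List.flatten_cons, List.length_append, List.length_append, ih,
          List.length_append, List.length_cons, List.length_cons, List.length_nil]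
        omega
    have h6 : w.length = L.flatten.length + L.length := by
      have h7 := w.length_support
      rw [hw, List.length_cons, hlen] at h7
      omega
    have h8 : L.flatten.length + 1 = n := by
      have h9 : L.flatten.toFinset = Finset.univ.erase s := by
        ext v
        rw [List.mem_toFinset, h2, Finset.mem_erase]
        simp
      have h10 : 0 < n := s.pos
      rw [← List.toFinset_card_of_nodup h1, h9, Finset.card_erase_of_mem (Finset.mem_univ s), Finset.card_univ,
        Fintype.card_fin]
      omega
    have h11 := two_length L hne
    have h12 : (L.filter fun l => l.length ≤ 1).length ≤ 1 := by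
      have h13 : (L.filter fun l => l.length ≤ 1).Nodup := (nodup_of_flatten L hne h1).filter _
      have h14 : ∀ a ∈ L.filter fun l => l.length ≤ 1, ∀ b ∈ L.filter fun l => l.length ≤ 1, a = b := by
        intro a ha b hb
        rw [List.mem_filter] at ha hb
        exact h5 a ha.1 b hb.1 (by simpa using ha.2) (by simpa using hb.2)
      rcases hF : L.filter fun l => l.length ≤ 1 with _ | ⟨a, _ | ⟨b, K⟩⟩
      · rw [hF]
        simp
      · rw [hF]
        simp
      · rw [hF] at h13 h14
        have := h14 a (by simp) b (by simp)
        rw [List.nodup_cons] at h13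
        exact absurd (by rw [this]; simp) h13.1
    omega

end H71Y
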