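import Pool.Agent.Lib.H71Y.J

/-!
# H71Y, file K: the number `k` of the nested cycles

The long path of `Pet.long` has at least `max (k, (n - 1) / k)` vertices, `k` the number of petals, and the closed walk
along the layers has exactly `n - 1 + k` steps.
-/

set_option autoImplicit false
set_option linter.unusedSectionVars false

namespace H71Y

open H53P H98V H98P Finset SimpleDraw H97W

section
variable {V : Type} {T : Table V} {s : V} {ρ : V → ℝ} {H : Finset (Sym2 V)} {L : List (List V)}

open Classical in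
/-- a long path between two neighbours of `s`, with the number of petals -/
theorem Pet.longX [Fintype V] (h : Pet T s ρ H L) (hV : 3 ≤ Fintype.card V)
    (hcon : ∀ u v, u ≠ s → v ≠ s → (GH s H).Reachable u v) :
    ∃ (u v : V) (p : (GH s H).Walk u v), p.IsPath ∧ u ≠ v ∧ u ≠ s ∧ s(s, u) ∈ H ∧ s(s, v) ∈ H ∧
      L.toFinset.card ≤ p.support.length ∧ Fintype.card V - 1 ≤ L.toFinset.card * p.support.length := by
  obtain ⟨P, hP⟩ : ∃ P : Finset (List V), P = L.toFinset := ⟨_, rfl⟩
  have hPL : ∀ l, l ∈ P ↔ l ∈ L := fun l => by rw [hP, List.mem_toFinset]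
  have hone : ∃ v : V, v ≠ s := by
    by_contra hcon'
    push Not at hcon'
    have : Fintype.card V ≤ 1 := Fintype.card_le_one_iff.2 fun a b => by rw [hcon' a, hcon' b]
    omega
  have hPne : P.Nonempty := by
    obtain ⟨v, hv⟩ := hone
    obtain ⟨l, hl, -⟩ := (h.mem v).2 hv
    exact ⟨l, (hPL l).2 hl⟩
  have hcard : Fintype.card V - 1 = (univ.erase s).card := by
    rw [card_erase_of_mem (mem_univ s), card_univ]
  -- the longest petal
  obtain ⟨m, hm, hmax⟩ := exists_max_image P List.length hPne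
  have hcount : Fintype.card V - 1 ≤ P.card * m.length := by
    rw [hcard]
    have h1 : univ.erase s ⊆ P.biUnion List.toFinset := by
      intro v hv
      obtain ⟨l, hl, hvl⟩ := (h.mem v).2 (mem_erase.1 hv).1
      exact mem_biUnion.2 ⟨l, (hPL l).2 hl, List.mem_toFinset.2 hvl⟩
    refine (card_le_card h1).trans (card_biUnion_le_card_mul _ _ _ fun l hl => ?_)
    exact (List.toFinset_card_le l).trans (hmax l hl)
  obtain ⟨f, hf⟩ : ∃ f : List V → ℝ, ∀ a l, f (a :: l) = ρ (la a l) := by
    refine ⟨fun l => match l with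
      | [] => 0
      | a :: l => ρ (la a l), fun a l => rfl⟩
  have hcons : ∀ l ∈ P, ∃ a l', l = a :: l' := by
    intro l hl
    cases l with
    | nil => exact absurd ((hPL _).1 hl) h.ne
    | cons a l' => exact ⟨a, l', rfl⟩
  rcases Nat.lt_or_ge m.length P.card with hlt | hge
  · -- many petals
    obtain ⟨x, hx, hxmin⟩ := exists_min_image P f hPne
    obtain ⟨y, hy, hymax⟩ := exists_max_image P f hPne
    obtain ⟨a1, l1, rfl⟩ := hcons x hx
    obtain ⟨a2, l2, rfl⟩ := hcons y hy
    have hm1 : 1 ≤ m.length := by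
      obtain ⟨a, l, rfl⟩ := hcons m hm
      simp
    have h1L := (hPL _).1 hx
    have h2L := (hPL _).1 hy
    have b1 : la a1 l1 ≠ s := (h.mem _).1 ⟨_, h1L, la_mem l1 a1⟩
    have b2 : la a2 l2 ≠ s := (h.mem _).1 ⟨_, h2L, la_mem l2 a2⟩
    -- the last vertex determines the petal
    have huniq : ∀ (c1 c2 : V) (k1 k2 : List V), c1 :: k1 ∈ L → c2 :: k2 ∈ L →
        ρ (la c1 k1) = ρ (la c2 k2) → c1 :: k1 = c2 :: k2 := by
      intro c1 c2 k1 k2 g1 g2 g3
      by_contra g4
      have g5 := h.rot.1 _ _ ((h.mem _).1 ⟨_, g1, la_mem k1 c1⟩) ((h.mem _).1 ⟨_, g2, la_mem k2 c2⟩) g3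
      exact h.dj _ g1 _ g2 g4 _ (la_mem k1 c1) (g5 ▸ la_mem k2 c2)
    have h12 : la a1 l1 ≠ la a2 l2 := by
      intro e
      have hall : ∀ l ∈ P, l = a1 :: l1 := by
        intro l hl
        obtain ⟨c, k, rfl⟩ := hcons l hl
        have g1 := hxmin _ hl
        have g2 := hymax _ hl
        rw [hf, hf] at g1 g2
        rw [← e] at g2
        exact huniq _ _ _ _ ((hPL _).1 hl) h1L (le_antisymm g2 g1)
      have : P.card ≤ 1 := card_le_one.2 fun l hl l' hl' => by rw [hall l hl, hall l' hl']
      omega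
    obtain ⟨q⟩ := hcon _ _ b1 b2
    obtain ⟨p, hp⟩ : ∃ p : (GH s H).Walk (la a1 l1) (la a2 l2), p.IsPath := ⟨q.toPath, q.toPath.2⟩
    have hmeet : ∀ l ∈ P, ∃ w ∈ p.support, w ∈ l := by
      intro l hl
      by_cases e1 : l = a1 :: l1
      · exact ⟨_, SimpleGraph.Walk.start_mem_support p, e1 ▸ la_mem l1 a1⟩
      by_cases e2 : l = a2 :: l2
      · exact ⟨_, SimpleGraph.Walk.end_mem_support p, e2 ▸ la_mem l2 a2⟩
      obtain ⟨a0, l0, rfl⟩ := hcons l hl
      by_contra hno
      push Not at hno
      have h0L := (hPL _).1 hl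
      have h3 := h.walk_sep h0L p hno a1 a2 l1 l2 h1L h2L (la_mem l1 a1) (la_mem l2 a2)
      have g1 := hxmin _ hl
      have g2 := hymax _ hl
      rw [hf, hf] at g1 g2
      have g3 : ρ (la a0 l0) < ρ (la a2 l2) := lt_of_le_of_ne g2 fun e => e2 (huniq _ _ _ _ h0L h2L e)
      exact absurd (h3.2 g3) (not_lt.2 g1)
    have : Nonempty V := ⟨s⟩
    choose! w hw1 hw2 using hmeet
    have hcardP : P.card ≤ p.support.length := by
      refine le_trans ?_ (List.toFinset_card_le p.support)
      refine card_le_card_of_injOn w (fun l hl => List.mem_toFinset.2 (hw1 l hl)) ?_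
      intro l hl l' hl' hll
      by_contra hne
      exact h.dj _ ((hPL _).1 hl) _ ((hPL _).1 hl') hne _ (hw2 l hl) (hll ▸ hw2 l' hl')
    rw [← hP]
    exact ⟨_, _, p, hp, h12, b1, h.lt _ _ h1L, h.lt _ _ h2L, hcardP,
      hcount.trans (Nat.mul_le_mul le_rfl (hlt.le.trans hcardP))⟩
  · -- a long petal
    obtain ⟨a, l, rfl⟩ := hcons m hm
    have hL := (hPL _).1 hm
    have hs : s ∉ a :: l := fun h5 => (h.mem s).1 ⟨_, hL, h5⟩ rfl
    obtain ⟨p, hp⟩ := walk_of_chain s H l a (h.ch _ hL) (h.nd _ hL) hs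
    have hpl : p.support.length = (a :: l).length := by rw [hp]
    have h2 : Fintype.card V - 1 ≤ P.card * p.support.length := by
      rw [hpl]
      exact hcount
    have h2' : P.card ≤ p.support.length := by
      rw [hpl]
      exact hge
    rw [← hP]
    refine ⟨_, _, p, ?_, ?_, fun e => hs (e ▸ by simp), h.hd _ _ hL, h.lt _ _ hL, h2', h2⟩
    · rw [SimpleGraph.Walk.isPath_def, hp]
      exact h.nd _ hL
    · intro e
      cases l with
      | nil =>
        rw [hpl] at h2 h2'
        simp only [List.length_cons, List.length_nil, zero_add, mul_one] at h2 h2'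
        omega
      | cons b l =>
        have h3 := h.nd _ hL
        rw [List.nodup_cons] at h3
        exact h3.1 (e ▸ la_mem l b)

end

/-- The closed walk along the layers: it visits every vertex except `s` exactly once and has exactly
`n - 1 + L.length` steps. -/
theorem walk_of_layersK {n : ℕ} {G : SimpleGraph (Fin n)} {s : Fin n} {L : List (List (Fin n))}
    (h1 : L.flatten.Nodup) (h2 : ∀ v, v ∈ L.flatten ↔ v ≠ s) (h3 : ∀ l ∈ L, (s :: (l ++ [s])).IsChain G.Adj)
    (h4 : ∀ l ∈ L, l ≠ []) (h5 : ∀ l ∈ L, ∀ l' ∈ L, l.length ≤ 1 → l'.length ≤ 1 → l = l') :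
    (∃ w : G.Walk s s, w.length = n - 1 + L.length ∧ w.support.tail.count s = L.length ∧
      ∀ v, v ≠ s → w.support.count v = 1) ∧ 2 * L.length ≤ n := by
  obtain ⟨w, hw⟩ := walk_petals L h3
  have hne : [] ∉ L := fun h => h4 _ h rfl
  have hsf : s ∉ L.flatten := fun h => (h2 s).1 h rfl
  have hlen : ∀ K : List (List (Fin n)),
      ((K.map fun l => l ++ [s]).flatten).length = K.flatten.length + K.length := by
    intro K
    induction K with
    | nil => rfl
    | cons l K ih =>
      rw [List.map_cons, List.flatten_cons, List.flatten_cons, List.length_append, List.length_append, ih,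
        List.length_append, List.length_cons, List.length_cons, List.length_nil]
      omega
  have hcount : ∀ K : List (List (Fin n)), s ∉ K.flatten →
      ((K.map fun l => l ++ [s]).flatten).count s = K.length := by
    intro K
    induction K with
    | nil => intro _; rfl
    | cons l K ih =>
      intro h
      rw [List.flatten_cons, List.mem_append, not_or] at h
      rw [List.map_cons, List.flatten_cons, List.count_append, ih h.2, List.count_append,
        List.count_eq_zero_of_not_mem h.1, List.count_singleton_self, List.length_cons]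
      omega
  have h6 : w.length = L.flatten.length + L.length := by
    have h7 := w.length_support
    rw [hw, List.length_cons, hlen] at h7
    omega
  have h8 : L.flatten.length + 1 = n := by
    have h9 : L.flatten.toFinset = Finset.univ.erase s := by
      ext v
      rw [List.mem_toFinset, h2, Finset.mem_erase]
      simp
    have h10 : 0 < n := s.pos
    rw [← List.toFinset_card_of_nodup h1, h9, Finset.card_erase_of_mem (Finset.mem_univ s), Finset.card_univ,
      Fintype.card_fin]
    omega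
  obtain ⟨w', -, hw'⟩ := walk_of_layersX h1 h2 h3 h4 h5
  have h11 := two_length L hne
  have h12 : (L.filter fun l => l.length ≤ 1).length ≤ 1 := by
    have h13 : (L.filter fun l => l.length ≤ 1).Nodup := (nodup_of_flatten L hne h1).filter _
    have h14 : ∀ a ∈ L.filter fun l => l.length ≤ 1, ∀ b ∈ L.filter fun l => l.length ≤ 1, a = b := by
      intro a ha b hb
      rw [List.mem_filter] at ha hb
      exact h5 a ha.1 b hb.1 (by simpa using ha.2) (by simpa using hb.2)
    rcases hF : L.filter fun l => l.length ≤ 1 with _ | ⟨a, _ | ⟨b, K⟩⟩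
    · rw [hF]
      simp
    · rw [hF]
      simp
    · rw [hF] at h13 h14
      have := h14 a (by simp) b (by simp)
      rw [List.nodup_cons] at h13
      exact absurd (by rw [this]; simp) h13.1
  refine ⟨⟨w, by omega, ?_, fun v hv => ?_⟩, by omega⟩
  · rw [hw, List.tail_cons]
    exact hcount L hsf
  · rw [hw, List.count_cons, count_petals hv]
    have : (s == v) = false := by
      rw [beq_eq_false_iff_ne]
      exact hv.symm
    rw [this]
    simp only [Bool.false_eq_true, if_false, add_zero]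
    exact List.count_eq_one_of_mem h1 ((h2 v).2 hv)

/-- `layersX_drawing` with the number of layers. -/
theorem layersK_drawing {n : ℕ} (hn : 3 ≤ n) (D : SimpleDrawing n) (s : Fin n) :
    ∃ (G : SimpleGraph (Fin n)) (L : List (List (Fin n))), D.Plane G ∧ G.edgeSet.ncard = 2 * n - 3 ∧
      (L.flatten.Nodup ∧ (∀ v, v ∈ L.flatten ↔ v ≠ s) ∧ (∀ l ∈ L, l ≠ []) ∧
      (∀ l ∈ L, (s :: (l ++ [s])).IsChain G.Adj) ∧ (∀ l ∈ L, ∀ l' ∈ L, l.length ≤ 1 → l'.length ≤ 1 → l = l') ∧
      (∀ (i j : ℕ) (_ : i < L.length) (_ : j < L.length), i + 1 < j → ∀ x ∈ L[i], ∀ y ∈ L[j], ¬ G.Adj x y) ∧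
      ∀ (i : ℕ) (_ : i + 1 < L.length), ∃ x ∈ L[i], ∃ y ∈ L[i + 1], G.Adj x y) ∧
      ∃ c : G.Walk s s, c.IsCycle ∧ L.length ≤ c.length - 1 ∧ n - 1 ≤ L.length * (c.length - 1) := by
  have hV : 3 ≤ Fintype.card (Fin n) := by rw [Fintype.card_fin]; exact hn
  obtain ⟨ρ, H, K, hK, h1, h2, h3, h4, h5⟩ := exists_petX (table D) hV s
  have hl : ∀ v, s(v, v) ∉ H := fun v hv => (H98Z.mem_LW.1 (h2 hv)).2.2 rfl
  obtain ⟨L, hL, hLK⟩ := hK.layers h4 h3
  obtain ⟨u, v, p, hp, huv, hu, hsu, hsv, hlen1, hlen2⟩ := hK.longX hV h3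
  have hcard : ∀ inst : DecidableEq (List (Fin n)), (@List.toFinset _ inst K).card = L.length := by
    intro inst
    rw [← List.toFinset_card_of_nodup (nodup_of_flatten L hL.ne hL.nd)]
    congr 1
    ext l
    rw [List.mem_toFinset, List.mem_toFinset, hLK]
  have hle : GH s H ≤ gr H := fun a b hab => adj_of hl hab.2
  have hadj : ∀ a b, (gr H).Adj a b → s(a, b) ∈ H := by
    intro a b hab
    rw [SimpleGraph.fromEdgeSet_adj] at hab
    exact mem_coe.1 hab.1
  obtain ⟨c, hc, hcl⟩ := cycle_of hle p hp huv hu (adj_of hl hsu) (adj_of hl hsv).symm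
  rw [Fintype.card_fin] at h5 hlen2
  rw [hcard] at hlen1 hlen2
  refine ⟨gr H, L, plane_of D h1, ?_, ⟨hL.nd, hL.mem, fun l hl1 e => hL.ne (e ▸ hl1), ?_, hL.single, ?_, ?_⟩,
    c, hc, ?_⟩
  · rw [ncard_edges hl]
    omega
  · exact fun l hl1 => (hL.ch l hl1).imp fun a b hab => adj_of hl hab
  · exact fun i j hi hj hij x hx y hy hxy => hL.far i j hi hj hij x hx y hy (hadj _ _ hxy)
  · intro i hi
    obtain ⟨x, hx, y, hy, hxy⟩ := hL.near i hi
    exact ⟨x, hx, y, hy, adj_of hl hxy⟩
  · rw [hcl]
    exact ⟨hlen1, hlen2⟩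

end H71Y
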